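import Mathlib

/-! Turán systems of bounded density (recursion on initial segments). -/

set_option autoImplicit false

namespace Pool.Agent.Lib.MP_270b52_co.Rs

open Finset

/-- the method of conditional expectations for a random subset -/
theorem exists_sub {ι κ : Type} [DecidableEq ι] (a : ι → ℝ) (J : Finset κ) (N : κ → Finset ι)
    {p : ℝ} (h0 : 0 ≤ p) (h1 : p ≤ 1) (I : Finset ι) : ∀ g : κ → ℝ, ∃ R ⊆ I,
      ∑ i ∈ R, a i + ∑ y ∈ J with Disjoint (N y) R, g y ≤
        p * ∑ i ∈ I, a i + ∑ y ∈ J, (1 - p) ^ (N y ∩ I).card * g y := by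
  induction I using Finset.induction_on with
  | empty => exact fun g => ⟨∅, Subset.rfl, by simp⟩
  | insert i I hi ih =>
    intro g
    obtain ⟨R₁, s₁, e₁⟩ := ih g
    obtain ⟨R₂, s₂, e₂⟩ := ih fun y => if i ∈ N y then 0 else g y
    have key : p * ∑ x ∈ insert i I, a x + ∑ y ∈ J, (1 - p) ^ (N y ∩ insert i I).card * g y =
        (1 - p) * (p * ∑ x ∈ I, a x + ∑ y ∈ J, (1 - p) ^ (N y ∩ I).card * g y) +
        p * (a i + (p * ∑ x ∈ I, a x +
          ∑ y ∈ J, (1 - p) ^ (N y ∩ I).card * if i ∈ N y then 0 else g y)) := by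
      have : ∑ y ∈ J, (1 - p) ^ (N y ∩ insert i I).card * g y =
          (1 - p) * ∑ y ∈ J, (1 - p) ^ (N y ∩ I).card * g y +
            p * ∑ y ∈ J, (1 - p) ^ (N y ∩ I).card * if i ∈ N y then 0 else g y := by
        rw [mul_sum, mul_sum, ← sum_add_distrib]
        refine sum_congr rfl fun y _ => ?_
        by_cases h : i ∈ N y
        · rw [inter_insert_of_mem h, card_insert_of_notMem (fun h' => hi (mem_inter.1 h').2),
            if_pos h]
          ring
        · rw [inter_insert_of_notMem h, if_neg h]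
          ring
      rw [this, sum_insert hi]
      ring
    have e₃ : ∑ x ∈ insert i R₂, a x + ∑ y ∈ J with Disjoint (N y) (insert i R₂), g y =
        a i + (∑ x ∈ R₂, a x + ∑ y ∈ J with Disjoint (N y) R₂, if i ∈ N y then 0 else g y) := by
      rw [sum_insert fun h => hi (s₂ h), add_assoc, sum_filter, sum_filter]
      congr 2
      refine sum_congr rfl fun y _ => ?_
      by_cases h : i ∈ N y <;> simp [h]
    rw [key]
    by_contra hn
    have c₁ := not_le.1 fun h => hn ⟨R₁, s₁.trans (subset_insert _ _), h⟩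
    have c₂ := not_le.1 fun h => hn ⟨insert i R₂, insert_subset_insert _ s₂, h⟩
    rw [e₃] at c₂
    have aux : ∀ X Y : ℝ, (1 - p) * X + p * Y < X → (1 - p) * X + p * Y < Y → False :=
      fun X Y a b => by
        rcases le_total X Y with h | h
        · nlinarith [mul_nonneg h0 (sub_nonneg.2 h)]
        · nlinarith [mul_nonneg (sub_nonneg.2 h1) (sub_nonneg.2 h)]
    exact aux _ _ (c₁.trans_le e₁) (c₂.trans_le (by linarith))

variable {α : Type} [LinearOrder α]

/-- the points of `A` above `Z` -/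
def above (A Z : Finset α) : Finset α := A.filter fun x => ∀ z ∈ Z, z < x

theorem exists_init (S : Finset α) : ∀ k ≤ S.card, ∃ Z ⊆ S, Z.card = k ∧
    ∀ z ∈ Z, ∀ x ∈ S \ Z, z < x := by
  intro k
  induction k with
  | zero => exact fun _ => ⟨∅, empty_subset _, rfl, by simp⟩
  | succ k ih =>
    intro hk
    obtain ⟨Z, h1, h2, h3⟩ := ih (by omega)
    have hne : (S \ Z).Nonempty := card_pos.1 (by rw [card_sdiff_of_subset h1]; omega)
    have hm := min'_mem _ hne
    refine ⟨insert ((S \ Z).min' hne) Z, insert_subset (mem_sdiff.1 hm).1 h1,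
      by rw [card_insert_of_notMem (mem_sdiff.1 hm).2, h2], fun z hz x hx => ?_⟩
    simp only [mem_sdiff, mem_insert, not_or] at hx
    rcases mem_insert.1 hz with rfl | hz
    · exact lt_of_le_of_ne (min'_le _ _ (mem_sdiff.2 ⟨hx.1, hx.2.2⟩)) (Ne.symm hx.2.1)
    · exact h3 z hz x (mem_sdiff.2 ⟨hx.1, hx.2.2⟩)

theorem sum_above (A : Finset α) (k t : ℕ) :
    ∑ Z ∈ powersetCard k A, (above A Z).card.choose t ≤ A.card.choose (k + t) := by
  simp only [← card_powersetCard]
  rw [← card_sigma]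
  refine card_le_card_of_injOn (fun x => x.1 ∪ x.2) ?_ ?_
  · rintro ⟨Z, e⟩ h
    simp only [coe_sigma, Set.mem_sigma_iff, mem_coe, mem_powersetCard] at h ⊢
    obtain ⟨⟨h1, h2⟩, h3, h4⟩ := h
    refine ⟨union_subset h1 (h3.trans (filter_subset _ _)), ?_⟩
    rw [card_union_of_disjoint, h2, h4]
    exact disjoint_left.2 fun z hz he => lt_irrefl _ ((mem_filter.1 (h3 he)).2 z hz)
  · rintro ⟨Z, e⟩ h ⟨Z', e'⟩ h' E
    simp only [coe_sigma, Set.mem_sigma_iff, mem_coe, mem_powersetCard] at h h' E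
    obtain ⟨⟨-, h2⟩, h3, -⟩ := h
    obtain ⟨⟨-, h2'⟩, h3', -⟩ := h'
    have hZ : Z = Z' := by
      by_contra hn
      obtain ⟨z, hz, hz'⟩ := not_subset.1 fun h => hn (eq_of_subset_of_card_le h (by omega))
      obtain ⟨y, hy, hy'⟩ := not_subset.1 fun h => hn (eq_of_subset_of_card_le h (by omega)).symm
      have a : z ∈ e' := (mem_union.1 (E ▸ mem_union_left e hz)).resolve_left hz'
      have b : y ∈ e := (mem_union.1 (E.symm ▸ mem_union_left e' hy)).resolve_left hy'
      exact lt_asymm ((mem_filter.1 (h3' a)).2 y hy) ((mem_filter.1 (h3 b)).2 z hz)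
    subst hZ
    congr 1
    ext x
    constructor
    · intro hx
      exact (mem_union.1 (E ▸ mem_union_right Z hx)).resolve_left fun hz =>
        lt_irrefl _ ((mem_filter.1 (h3 hx)).2 x hz)
    · intro hx
      exact (mem_union.1 (E.symm ▸ mem_union_right Z hx)).resolve_left fun hz =>
        lt_irrefl _ ((mem_filter.1 (h3' hx)).2 x hz)

theorem choose_ratio {a c j : ℕ} {γ : ℝ} (h : (a : ℝ) ≤ γ * (c + 1 - j : ℕ)) :
    (a.choose j : ℝ) ≤ γ ^ j * c.choose j := by
  have hγ : 0 ≤ γ * (c + 1 - j : ℕ) := (Nat.cast_nonneg _).trans h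
  rcases Nat.eq_zero_or_pos (c + 1 - j) with h0 | h0
  · have : a = 0 := by
      rw [h0] at h
      simpa using h
    subst this
    cases j with
    | zero => simp at h0
    | succ j => simp [Nat.choose_eq_zero_of_lt (show c < j + 1 by omega)]
  have hγ' : 0 ≤ γ := nonneg_of_mul_nonneg_left hγ (by exact_mod_cast h0)
  refine (Nat.choose_le_pow_div j a).trans (le_trans ?_
    (mul_le_mul_of_nonneg_left (Nat.pow_le_choose j c) (pow_nonneg hγ' _)))
  rw [← mul_div_assoc, ← mul_pow]
  gcongr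

/-- every `(b+j)`-subset of `A` contains a member of `T` -/
def Tur (A : Finset α) (b j : ℕ) (T : Finset (Finset α)) : Prop :=
  T ⊆ powersetCard b A ∧ ∀ S ⊆ A, S.card = b + j → ∃ e ∈ T, e ⊆ S

theorem exists_tur (j b : ℕ) : ∀ A : Finset α, ∃ T, Tur A b j T ∧
    (T.card : ℝ) * (b + j).choose j ≤ 64 ^ j * A.card.choose b := by
  induction b using Nat.strong_induction_on with
  | _ b ih =>
  intro A
  by_cases htr : ((b + j).choose j : ℝ) ≤ 64 ^ j
  · refine ⟨powersetCard b A, ⟨Subset.rfl, fun S hS hc => ?_⟩, ?_⟩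
    · obtain ⟨e, h1, h2⟩ := exists_subset_card_eq (show b ≤ S.card by omega)
      exact ⟨e, mem_powersetCard.2 ⟨h1.trans hS, h2⟩, h1⟩
    · rw [card_powersetCard, mul_comm]
      gcongr
  have hj : 1 ≤ j := by
    rcases Nat.eq_zero_or_pos j with rfl | h
    · simp at htr
    · exact h
  have hb : 4 * j ≤ b := by
    by_contra hn
    refine htr ?_
    have : (b + j).choose j ≤ 64 ^ j := (Nat.choose_le_two_pow _ _).trans (by
      rw [show 64 = 2 ^ 6 from rfl, ← pow_mul]
      exact Nat.pow_le_pow_right two_pos (by omega))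
    exact_mod_cast this
  obtain ⟨k, t, hk, hk1, hk2⟩ : ∃ k t, b = k + j + t ∧ b + j ≤ 5 * (k + j + 1 - j) ∧
      b + j ≤ 5 * (t + j + 1 - j) ∧ 2 * j ≤ k := ⟨b / 2, b - b / 2 - j, by omega⟩
  have r1 : ((b + j).choose j : ℝ) ≤ 5 ^ j * (k + j).choose j :=
    choose_ratio (by exact_mod_cast hk1)
  have r2 : ((b + j).choose j : ℝ) ≤ 5 ^ j * (t + j).choose j :=
    choose_ratio (by exact_mod_cast hk2.1)
  have hc : (2 * (3 * j + 1) * 5 ^ j : ℝ) ≤ 64 ^ j := by
    have : ∀ i : ℕ, 2 * (3 * (i + 1) + 1) * 5 ^ (i + 1) ≤ 64 ^ (i + 1) := fun i => by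
      induction i with
      | zero => norm_num
      | succ i ih => rw [pow_succ 5, pow_succ 64]; nlinarith [Nat.zero_le (5 ^ (i + 1))]
    obtain ⟨i, rfl⟩ : ∃ i, j = i + 1 := ⟨j - 1, by omega⟩
    exact_mod_cast this i
  set N : ℝ := (((k + j).choose j : ℕ) : ℝ) with hN
  have h5 : (0 : ℝ) < 5 ^ j := by positivity
  have hN1 : (3 * j + 1 : ℝ) ≤ N := by
    have : (0 : ℝ) ≤ j := Nat.cast_nonneg _
    nlinarith [not_le.1 htr]
  have hN0 : 0 < N := lt_of_lt_of_le (by positivity) hN1
  choose T hT hT' using ih t (by omega)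
  obtain ⟨R, hR, hle⟩ := exists_sub (fun Z => ((above A Z).card.choose (j + t) : ℝ))
    (powersetCard (k + j) A) (fun Y => powersetCard k Y) (p := (3 * j + 1) / N) (by positivity)
    ((div_le_one hN0).2 hN1) (powersetCard k A) fun Y => ((T (above A Y)).card : ℝ)
  have dj : ∀ {Z e : Finset α}, e ⊆ above A Z → Disjoint Z e := fun h =>
    disjoint_left.2 fun z hz he => lt_irrefl _ ((mem_filter.1 (h he)).2 z hz)
  refine ⟨R.biUnion (fun Z => (powersetCard (j + t) (above A Z)).image (Z ∪ ·)) ∪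
    ((powersetCard (k + j) A).filter fun Y => Disjoint (powersetCard k Y) R).biUnion
      fun Y => (T (above A Y)).image (Y ∪ ·), ⟨fun e he => ?_, fun S hS hc => ?_⟩, ?_⟩
  · simp only [mem_union, mem_biUnion, mem_image, mem_filter, mem_powersetCard] at he ⊢
    rcases he with ⟨Z, hZ, e, ⟨h1, h2⟩, rfl⟩ | ⟨Y, ⟨⟨h1, h2⟩, -⟩, e, he, rfl⟩
    · obtain ⟨h3, h4⟩ := mem_powersetCard.1 (hR hZ)
      exact ⟨union_subset h3 (h1.trans (filter_subset _ _)), by
        rw [card_union_of_disjoint (dj h1)]; omega⟩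
    · obtain ⟨h3, h4⟩ := mem_powersetCard.1 ((hT _).1 he)
      exact ⟨union_subset h1 (h3.trans (filter_subset _ _)), by
        rw [card_union_of_disjoint (dj h3)]; omega⟩
  · obtain ⟨Y, y1, y2, y3⟩ := exists_init S (k + j) (by omega)
    have y4 : (S \ Y).card = t + j := by rw [card_sdiff_of_subset y1]; omega
    simp only [mem_union, mem_biUnion, mem_image, mem_filter, mem_powersetCard]
    by_cases hd : Disjoint (powersetCard k Y) R
    · obtain ⟨e, e1, e2⟩ := (hT (above A Y)).2 (S \ Y) (fun x hx =>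
        mem_filter.2 ⟨hS (mem_sdiff.1 hx).1, fun z hz => y3 z hz x hx⟩) y4
      exact ⟨Y ∪ e, Or.inr ⟨Y, ⟨⟨y1.trans hS, y2⟩, hd⟩, e, e1, rfl⟩,
        union_subset y1 (e2.trans sdiff_subset)⟩
    · obtain ⟨Z, z1, z2⟩ := not_disjoint_iff.1 hd
      have z3 := (mem_powersetCard.1 z1).1
      exact ⟨Z ∪ S \ Y, Or.inl ⟨Z, z2, S \ Y, ⟨fun x hx => mem_filter.2
        ⟨hS (mem_sdiff.1 hx).1, fun z hz => y3 z (z3 hz) x hx⟩, by omega⟩, rfl⟩,
        union_subset (z3.trans y1) sdiff_subset⟩
  · set C : ℝ := ((A.card.choose b : ℕ) : ℝ) with hC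
    have hC0 : 0 ≤ C := Nat.cast_nonneg _
    have s1 : ∑ Z ∈ powersetCard k A, ((above A Z).card.choose (j + t) : ℝ) ≤ C := by
      have := sum_above A k (j + t)
      rw [show k + (j + t) = b by omega] at this
      rw [hC]
      exact_mod_cast this
    have s2 : ∑ Y ∈ powersetCard (k + j) A, ((above A Y).card.choose t : ℝ) ≤ C := by
      have := sum_above A (k + j) t
      rw [← hk] at this
      rw [hC]
      exact_mod_cast this
    have hq : ∀ Y ∈ powersetCard (k + j) A, (1 - (3 * j + 1) / N) ^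
        (powersetCard k Y ∩ powersetCard k A).card * 5 ^ j ≤ 1 / 2 := fun Y hY => by
      obtain ⟨y1, y2⟩ := mem_powersetCard.1 hY
      rw [inter_eq_left.2 (powersetCard_mono y1), card_powersetCard, y2,
        Nat.choose_symm_add]
      have a1 : (1 - (3 * j + 1) / N) ^ (k + j).choose j ≤ Real.exp (-(3 * j + 1)) := by
        have := pow_le_pow_left₀ (sub_nonneg.2 ((div_le_one hN0).2 hN1))
          (Real.one_sub_le_exp_neg ((3 * j + 1) / N)) ((k + j).choose j)
        rw [← Real.exp_nat_mul, ← hN] at this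
        refine this.trans (le_of_eq ?_)
        congr 1
        field_simp
      have a2 : 2 * (5 : ℝ) ^ j ≤ Real.exp (3 * j + 1) := by
        have b1 : (2 : ℝ) ≤ Real.exp 1 := by linarith [Real.add_one_le_exp 1]
        have b2 : (5 : ℝ) ≤ Real.exp 3 := by
          have := pow_le_pow_left₀ (by norm_num) b1 3
          rw [← Real.exp_nat_mul] at this
          norm_num at this
          linarith
        rw [Real.exp_add, mul_comm (3 : ℝ), Real.exp_nat_mul, mul_comm]
        gcongr
      have a3 := Real.exp_pos (3 * j + 1)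
      rw [Real.exp_neg] at a1
      refine (mul_le_mul_of_nonneg_right a1 h5.le).trans ?_
      rw [inv_mul_le_iff₀ a3]
      linarith
    have c1 : (((R.biUnion fun Z => (powersetCard (j + t) (above A Z)).image (Z ∪ ·)) ∪
        ((powersetCard (k + j) A).filter fun Y => Disjoint (powersetCard k Y) R).biUnion
          fun Y => (T (above A Y)).image (Y ∪ ·)).card : ℝ) ≤
        ∑ Z ∈ R, ((above A Z).card.choose (j + t) : ℝ) +
          ∑ Y ∈ powersetCard (k + j) A with Disjoint (powersetCard k Y) R,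
            ((T (above A Y)).card : ℝ) := by
      exact_mod_cast (card_union_le _ _).trans (Nat.add_le_add
        (card_biUnion_le.trans (sum_le_sum fun Z _ => card_image_le.trans
          (card_powersetCard _ _).le))
        (card_biUnion_le.trans (sum_le_sum fun Z _ => card_image_le)))
    have hB : (0 : ℝ) ≤ (b + j).choose j := Nat.cast_nonneg _
    refine (mul_le_mul_of_nonneg_right (c1.trans hle) hB).trans ?_
    rw [add_mul, sum_mul]
    have d1 : (3 * j + 1) / N * (∑ Z ∈ powersetCard k A, ((above A Z).card.choose (j + t) : ℝ)) *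
        (b + j).choose j ≤ 64 ^ j / 2 * C := by
      calc _ ≤ (3 * j + 1) / N * C * (5 ^ j * N) := by gcongr
        _ = 2 * (3 * j + 1) * 5 ^ j / 2 * C := by field_simp
        _ ≤ _ := by gcongr
    have d2 : ∑ Y ∈ powersetCard (k + j) A, (1 - (3 * j + 1) / N) ^
        (powersetCard k Y ∩ powersetCard k A).card * (T (above A Y)).card * (b + j).choose j ≤
        64 ^ j / 2 * C := by
      refine le_trans (sum_le_sum fun Y hY => ?_) ((mul_sum _ _ _).ge.trans
        (mul_le_mul_of_nonneg_left s2 (by positivity)))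
      have q0 := pow_nonneg (sub_nonneg.2 ((div_le_one hN0).2 hN1))
        (powersetCard k Y ∩ powersetCard k A).card
      calc _ ≤ _ * (T (above A Y)).card * (5 ^ j * ((t + j).choose j : ℝ)) := by gcongr
        _ = _ * 5 ^ j * ((T (above A Y)).card * ((t + j).choose j : ℝ)) := by ring
        _ ≤ 1 / 2 * (64 ^ j * (above A Y).card.choose t) :=
          mul_le_mul (hq Y hY) (hT' _) (by positivity) (by norm_num)
        _ = _ := by ring
    linarith

end Pool.Agent.Lib.MP_270b52_co.Rs
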