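import Pool.Agent.Lib.MP_270b52_co.Rs.A

/-! An intersecting family defined by a congruence, thinned by products of Turán systems. -/

set_option autoImplicit false

namespace Pool.Agent.Lib.MP_270b52_co.Rs

open Finset

theorem vander (u w j l s : ℕ) :
    ∑ b ∈ range (s + 1), (u + j).choose (b + j) * (w + l).choose (s - b + l) ≤
      (u + w + (j + l)).choose (s + (j + l)) := by
  rw [show u + w + (j + l) = u + j + (w + l) by omega, Nat.add_choose_eq]
  have inj : Set.InjOn (fun b => (b + j, s - b + l)) (range (s + 1) : Finset ℕ) :=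
    fun a _ b _ h => by simpa using congrArg Prod.fst h
  refine le_trans (sum_image (f := fun x : ℕ × ℕ => (u + j).choose x.1 * (w + l).choose x.2)
    inj).ge (sum_le_sum_of_subset fun x hx => ?_)
  obtain ⟨b, hb, rfl⟩ := mem_image.1 hx
  have := mem_range.1 hb
  exact mem_antidiagonal.2 (by simp only; omega)

theorem choose_shift (n b j : ℕ) :
    (n + j).choose (b + j) * (b + j).choose j = (n + j).choose j * n.choose b := by
  rw [Nat.choose_mul (by omega), Nat.add_sub_cancel, Nat.add_sub_cancel]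

theorem exists_tur' {α : Type} [LinearOrder α] (A : Finset α) (b j : ℕ) : ∃ T, Tur A b j T ∧
    (T.card : ℝ) * (A.card + j).choose j ≤ 64 ^ j * (A.card + j).choose (b + j) := by
  obtain ⟨T, h1, h2⟩ := exists_tur j b A
  refine ⟨T, h1, ?_⟩
  have p : (0 : ℝ) < (b + j).choose j := by exact_mod_cast Nat.choose_pos (by omega)
  have e : ((A.card + j).choose (b + j) : ℝ) * (b + j).choose j =
      (A.card + j).choose j * A.card.choose b := by exact_mod_cast choose_shift A.card b j
  refine le_of_mul_le_mul_right ?_ p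
  rw [mul_assoc (64 ^ j : ℝ), e, mul_right_comm, mul_left_comm, mul_comm]
  gcongr

theorem split_le {u w j l : ℕ} {γ : ℝ} (hγ : 0 ≤ γ) (hu : ((u + w + (j + l) : ℕ) : ℝ) ≤ γ * (u + 1))
    (hw : ((u + w + (j + l) : ℕ) : ℝ) ≤ γ * (w + 1)) :
    ((u + w + (j + l)).choose (j + l) : ℝ) ≤
      γ ^ (j + l) * ((u + j).choose j * (w + l).choose l) := by
  set n := u + w + (j + l)
  have a := Nat.pow_le_choose (α := ℝ) j (u + j)
  have b := Nat.pow_le_choose (α := ℝ) l (w + l)
  rw [show u + j + 1 - j = u + 1 by omega] at a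
  rw [show w + l + 1 - l = w + 1 by omega] at b
  have f : ((j.factorial : ℝ) * l.factorial) ≤ (j + l).factorial := by
    exact_mod_cast Nat.le_of_dvd (Nat.factorial_pos _) (Nat.factorial_mul_factorial_dvd_factorial_add j l)
  push_cast at a b
  calc _ ≤ (n : ℝ) ^ (j + l) / (j + l).factorial := Nat.choose_le_pow_div _ _
    _ ≤ (γ * (u + 1)) ^ j * (γ * (w + 1)) ^ l / (j.factorial * l.factorial) := by
      rw [pow_add]
      gcongr
    _ = γ ^ (j + l) * (((u + 1) ^ j / j.factorial) * ((w + 1) ^ l / l.factorial)) := by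
      rw [mul_pow, mul_pow, pow_add]
      field_simp
    _ ≤ _ := by gcongr

/-- two disjoint sets cannot both satisfy the congruence -/
theorem res_inter {r s R q : ℕ} (hr : r + 1 = 2 * s + R) {U e f : Finset (Fin r)}
    (hU : U.card = (R + 1) * q + R) (he : e.card = s) (hf : f.card = s)
    (h1 : R + 1 ∣ (e ∩ U).card) (h2 : R + 1 ∣ (f ∩ U).card) : (e ∩ f).Nonempty := by
  by_contra hn
  have hd : Disjoint e f := disjoint_iff_inter_eq_empty.2 (not_nonempty_iff_eq_empty.1 hn)
  have a : ((e ∪ f) ∩ U).card = (e ∩ U).card + (f ∩ U).card := by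
    rw [union_inter_distrib_right, card_union_of_disjoint
      (hd.mono inter_subset_left inter_subset_left)]
  have b : (U \ (e ∪ f)).card + ((e ∪ f) ∩ U).card = U.card := by
    rw [inter_comm, card_sdiff_add_card_inter]
  have c : (U \ (e ∪ f)).card ≤ (e ∪ f)ᶜ.card :=
    card_le_card fun x hx => mem_compl.2 (mem_sdiff.1 hx).2
  have c' := card_le_univ (e ∪ f)
  rw [card_compl, card_union_of_disjoint hd, Fintype.card_fin] at c
  rw [card_union_of_disjoint hd, Fintype.card_fin] at c'
  obtain ⟨x, hx⟩ := Nat.dvd_add h1 h2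
  rcases le_or_gt x q with h | h
  · have := Nat.mul_le_mul_left (R + 1) h
    omega
  · have := Nat.mul_le_mul_left (R + 1) (Nat.succ_le_of_lt h)
    rw [Nat.mul_succ] at this
    omega

theorem exists_fam {r s R : ℕ} (hs : 1 ≤ s) (hr : r + 1 = 2 * s + R) :
    ∃ H : Finset (Finset (Fin r)), (∀ e ∈ H, e.card = s) ∧ (∀ e ∈ H, ∀ f ∈ H, (e ∩ f).Nonempty) ∧
      (∀ C : Finset (Fin r), C.card < s → ∃ e ∈ H, Disjoint e C) ∧
      (H.card : ℝ) * (s + R).choose R ≤ 512 ^ R * r.choose s := by
  obtain ⟨q, c, hc, hq⟩ : ∃ q c, c ≤ R ∧ s = (R + 1) * q + c :=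
    ⟨s / (R + 1), s % (R + 1), Nat.le_of_lt_succ (Nat.mod_lt _ R.succ_pos),
      (Nat.div_add_mod _ _).symm⟩
  obtain ⟨U, -, hU⟩ := exists_subset_card_eq (s := (univ : Finset (Fin r)))
    (n := (R + 1) * q + R) (by rw [card_univ, Fintype.card_fin]; omega)
  have hW : U.card + Uᶜ.card = r := by rw [card_add_card_compl, Fintype.card_fin]
  choose T hT hT' using fun A : Finset (Fin r) => exists_tur' A
  set H := (range (R + 1)).biUnion fun j => ((range (s + 1)).filter (R + 1 ∣ ·)).biUnion fun b =>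
    image₂ (· ∪ ·) (T U b j) (T Uᶜ (s - b) (R - j)) with hH
  have mem : ∀ e ∈ H, e.card = s ∧ R + 1 ∣ (e ∩ U).card := fun e he => by
    simp only [hH, mem_biUnion, mem_image₂, mem_filter, mem_range] at he
    obtain ⟨j, -, b, ⟨hb, hd⟩, x, hx, y, hy, rfl⟩ := he
    obtain ⟨x1, x2⟩ := mem_powersetCard.1 ((hT _ _ _).1 hx)
    obtain ⟨y1, y2⟩ := mem_powersetCard.1 ((hT _ _ _).1 hy)
    have d : Disjoint y U := disjoint_left.2 fun z hz => mem_compl.1 (y1 hz)
    refine ⟨by rw [card_union_of_disjoint (d.symm.mono_left x1)]; omega, ?_⟩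
    rwa [union_inter_distrib_right, inter_eq_left.2 x1, disjoint_iff_inter_eq_empty.1 d,
      union_empty, x2]
  refine ⟨H, fun e he => (mem e he).1, fun e he f hf =>
    res_inter hr hU (mem e he).1 (mem f hf).1 (mem e he).2 (mem f hf).2, fun C hC => ?_, ?_⟩
  · obtain ⟨S, S1, S2⟩ := exists_subset_card_eq (s := Cᶜ) (n := s + R)
      (by rw [card_compl, Fintype.card_fin]; omega)
    obtain ⟨x, j, hj, hx⟩ : ∃ x j, j ≤ R ∧ (S ∩ U).card = (R + 1) * x + j :=
      ⟨_, _, Nat.le_of_lt_succ (Nat.mod_lt _ R.succ_pos), (Nat.div_add_mod _ _).symm⟩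
    have a : (S ∩ U).card ≤ U.card := card_le_card inter_subset_right
    have hxq : (R + 1) * x ≤ (R + 1) * q := Nat.mul_le_mul_left _ (by
      by_contra hn
      have := Nat.mul_le_mul_left (R + 1) (Nat.succ_le_of_lt (not_le.1 hn))
      rw [Nat.mul_succ] at this
      omega)
    have b : (S \ U).card + (S ∩ U).card = S.card := card_sdiff_add_card_inter _ _
    obtain ⟨e, e1, e2⟩ := (hT U ((R + 1) * x) j).2 (S ∩ U) inter_subset_right hx
    obtain ⟨f, f1, f2⟩ := (hT Uᶜ (s - (R + 1) * x) (R - j)).2 (S \ U)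
      (fun z hz => mem_compl.2 (mem_sdiff.1 hz).2) (by omega)
    refine ⟨e ∪ f, ?_, disjoint_left.2 fun z hz => mem_compl.1 (S1 (union_subset
      (e2.trans inter_subset_left) (f2.trans sdiff_subset) hz))⟩
    simp only [hH, mem_biUnion, mem_image₂, mem_filter, mem_range]
    exact ⟨j, by omega, (R + 1) * x, ⟨by omega, dvd_mul_right _ _⟩, e, e1, f, f1, rfl⟩
  have hpos : (1 : ℝ) ≤ r.choose s := by exact_mod_cast Nat.choose_pos (by omega)
  rcases lt_or_ge s R with hR | hR
  · have a : H.card ≤ r.choose s := by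
      have := card_le_card (show H ⊆ powersetCard s univ from fun e he =>
        mem_powersetCard.2 ⟨subset_univ _, (mem e he).1⟩)
      rwa [card_powersetCard, card_univ, Fintype.card_fin] at this
    have b : (s + R).choose R ≤ 512 ^ R := (Nat.choose_le_two_pow _ _).trans (by
      rw [show 512 = 2 ^ 9 from rfl, ← pow_mul]
      exact Nat.pow_le_pow_right two_pos (by omega))
    rw [mul_comm]
    exact_mod_cast Nat.mul_le_mul b a
  have key : ∀ j ∈ range (R + 1), ((((range (s + 1)).filter (R + 1 ∣ ·)).biUnion fun b =>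
      image₂ (· ∪ ·) (T U b j) (T Uᶜ (s - b) (R - j))).card : ℝ) * (s + R).choose R ≤
        256 ^ R * r.choose s := fun j hj => by
    obtain ⟨l, rfl⟩ : ∃ l, R = j + l := ⟨R - j, by have := mem_range.1 hj; omega⟩
    rw [Nat.add_sub_cancel_left]
    have c1 : ((((range (s + 1)).filter (j + l + 1 ∣ ·)).biUnion fun b =>
        image₂ (· ∪ ·) (T U b j) (T Uᶜ (s - b) l)).card : ℝ) ≤
        ∑ b ∈ range (s + 1), ((T U b j).card : ℝ) * (T Uᶜ (s - b) l).card := by
      exact_mod_cast card_biUnion_le.trans ((sum_le_sum fun b _ => card_image₂_le _ _ _).trans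
        (sum_le_sum_of_subset (filter_subset _ _)))
    have c2 : (∑ b ∈ range (s + 1), ((T U b j).card : ℝ) * (T Uᶜ (s - b) l).card) *
        ((U.card + j).choose j * (Uᶜ.card + l).choose l) ≤
        64 ^ (j + l) * (r + (j + l)).choose (s + (j + l)) := by
      have v := vander U.card Uᶜ.card j l s
      rw [hW] at v
      have v' : (∑ b ∈ range (s + 1), ((U.card + j).choose (b + j) : ℝ) *
          (Uᶜ.card + l).choose (s - b + l)) ≤ (r + (j + l)).choose (s + (j + l)) := by
        exact_mod_cast v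
      refine le_trans ?_ (mul_le_mul_of_nonneg_left v' (by positivity))
      rw [sum_mul, mul_sum]
      refine sum_le_sum fun b _ => ?_
      calc _ = (T U b j).card * ((U.card + j).choose j : ℝ) *
            ((T Uᶜ (s - b) l).card * (Uᶜ.card + l).choose l) := by ring
        _ ≤ _ := mul_le_mul (hT' U b j) (hT' Uᶜ (s - b) l) (by positivity) (by positivity)
        _ = _ := by ring
    have c3 := split_le (u := U.card) (w := Uᶜ.card) (j := j) (l := l) (γ := 4) (by norm_num)
      (by exact_mod_cast (by omega : U.card + Uᶜ.card + (j + l) ≤ 4 * (U.card + 1)))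
      (by exact_mod_cast (by omega : U.card + Uᶜ.card + (j + l) ≤ 4 * (Uᶜ.card + 1)))
    rw [hW] at c3
    have e : ((r + (j + l)).choose (s + (j + l)) : ℝ) * (s + (j + l)).choose (j + l) =
        (r + (j + l)).choose (j + l) * r.choose s := by exact_mod_cast choose_shift r s (j + l)
    have p : (0 : ℝ) < (U.card + j).choose j * (Uᶜ.card + l).choose l := by
      exact_mod_cast Nat.mul_pos (Nat.choose_pos (by omega)) (Nat.choose_pos (by omega))
    refine (mul_le_mul_of_nonneg_right c1 (Nat.cast_nonneg _)).trans (le_of_mul_le_mul_right ?_ p)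
    calc _ = _ * ((U.card + j).choose j * (Uᶜ.card + l).choose l : ℝ) *
          (s + (j + l)).choose (j + l) := mul_right_comm _ _ _
      _ ≤ 64 ^ (j + l) * (r + (j + l)).choose (s + (j + l)) * (s + (j + l)).choose (j + l) := by
        gcongr
      _ = 64 ^ (j + l) * ((r + (j + l)).choose (j + l) * r.choose s) := by rw [mul_assoc, e]
      _ ≤ 64 ^ (j + l) * (4 ^ (j + l) * ((U.card + j).choose j * (Uᶜ.card + l).choose l) *
          r.choose s) := by gcongr
      _ = _ := by
        rw [show (256 : ℝ) = 64 * 4 by norm_num, mul_pow]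
        ring
  have c : (H.card : ℝ) ≤ ∑ j ∈ range (R + 1), ((((range (s + 1)).filter (R + 1 ∣ ·)).biUnion
      fun b => image₂ (· ∪ ·) (T U b j) (T Uᶜ (s - b) (R - j))).card : ℝ) := by
    exact_mod_cast card_biUnion_le
  refine (mul_le_mul_of_nonneg_right c (Nat.cast_nonneg _)).trans ?_
  rw [sum_mul]
  refine (sum_le_card_nsmul _ _ _ key).trans ?_
  have : ((R + 1 : ℕ) : ℝ) ≤ 2 ^ R := by exact_mod_cast Nat.lt_two_pow_self
  rw [card_range, nsmul_eq_mul, show (512 : ℝ) = 2 * 256 by norm_num, mul_pow, mul_assoc]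
  gcongr

end Pool.Agent.Lib.MP_270b52_co.Rs
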