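import Mathlib

/-! Expectations over a random subset. -/

set_option autoImplicit false

namespace Pool.Agent.Lib.MP_270b52_co.Rs

open Finset

variable {ι : Type} [DecidableEq ι] {p : ℝ} {I : Finset ι}

/-- the expectation of `F` at a random subset of `I` of density `p` -/
noncomputable def Ex (p : ℝ) (I : Finset ι) (F : Finset ι → ℝ) : ℝ :=
  ∑ R ∈ I.powerset, (∏ _i ∈ R, p) * (∏ _i ∈ I \ R, (1 - p)) * F R

theorem Ex_mono (h0 : 0 ≤ p) (h1 : p ≤ 1) {F G : Finset ι → ℝ} (h : ∀ R ⊆ I, F R ≤ G R) :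
    Ex p I F ≤ Ex p I G :=
  sum_le_sum fun R hR => mul_le_mul_of_nonneg_left (h R (mem_powerset.1 hR))
    (mul_nonneg (prod_nonneg fun _ _ => h0) (prod_nonneg fun _ _ => sub_nonneg.2 h1))

theorem Ex_add (F G : Finset ι → ℝ) : Ex p I (fun R => F R + G R) = Ex p I F + Ex p I G := by
  simp only [Ex, mul_add, sum_add_distrib]

theorem Ex_mul (a : ℝ) (F : Finset ι → ℝ) : Ex p I (fun R => a * F R) = a * Ex p I F := by
  simp only [Ex, mul_sum]
  exact sum_congr rfl fun _ _ => by ring

theorem Ex_sum {κ : Type} (J : Finset κ) (F : κ → Finset ι → ℝ) :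
    Ex p I (fun R => ∑ y ∈ J, F y R) = ∑ y ∈ J, Ex p I (F y) := by
  simp only [Ex, mul_sum]
  exact sum_comm

theorem Ex_prod (x z : ι → ℝ) : Ex p I (fun R => (∏ i ∈ R, x i) * ∏ i ∈ I \ R, z i) =
    ∏ i ∈ I, (p * x i + (1 - p) * z i) := by
  rw [prod_add]
  refine sum_congr rfl fun R _ => ?_
  simp only [prod_mul_distrib]
  ring

theorem Ex_const (a : ℝ) : Ex p I (fun _ => a) = a := by
  have := Ex_prod (p := p) (I := I) (fun _ => 1) fun _ => 1
  simp only [prod_const_one, mul_one, add_sub_cancel] at this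
  have e := Ex_mul (p := p) (I := I) a fun _ => 1
  rwa [this, mul_one] at e

theorem exists_le_Ex (h0 : 0 ≤ p) (h1 : p ≤ 1) (F : Finset ι → ℝ) :
    ∃ R ⊆ I, F R ≤ Ex p I F := by
  obtain ⟨R, hR, h⟩ := exists_min_image I.powerset F ⟨∅, empty_mem_powerset _⟩
  exact ⟨R, mem_powerset.1 hR, (Ex_const (p := p) (I := I) _).ge.trans
    (Ex_mono h0 h1 fun S hS => h S (mem_powerset.2 hS))⟩

theorem Ex_insert {i : ι} (hi : i ∉ I) (F : Finset ι → ℝ) :
    Ex p (insert i I) F = p * Ex p I (fun R => F (insert i R)) + (1 - p) * Ex p I F := by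
  simp only [Ex]
  rw [sum_powerset_insert hi, add_comm, mul_sum, mul_sum]
  congr 1 <;> refine sum_congr rfl fun R hR => ?_
  · have h : i ∉ R := fun h => hi (mem_powerset.1 hR h)
    rw [prod_insert h, insert_sdiff_insert, sdiff_insert_of_notMem hi]
    ring
  · have h : i ∉ R := fun h => hi (mem_powerset.1 hR h)
    rw [insert_sdiff_of_notMem _ h, prod_insert fun h => hi (mem_sdiff.1 h).1]
    ring

theorem Ex_union {N O : Finset ι} (h : Disjoint N O) (F : Finset ι → ℝ) :
    Ex p (N ∪ O) F = Ex p O fun S => Ex p N fun R => F (R ∪ S) := by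
  induction O using Finset.induction_on generalizing F with
  | empty => simp [Ex]
  | insert i O hi ih =>
    obtain ⟨h1, h2⟩ := disjoint_insert_right.1 h
    rw [union_insert, Ex_insert (by simp [h1, hi]), Ex_insert hi, ih h2, ih h2]
    simp only [union_insert]

theorem Ex_sub (h0 : 0 ≤ p) (h1 : p ≤ 1) (Z : Finset ι) {x : ι → ℝ} (hx : ∀ i, 1 ≤ x i)
    (hZ : ∀ i ∈ Z, x i = 1) : Ex p I (fun R => if Z ⊆ R then ∏ i ∈ R, x i else 0) ≤
      p ^ Z.card * Real.exp (∑ i ∈ I, p * (x i - 1)) := by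
  by_cases hI : Z ⊆ I
  · refine le_trans (Ex_mono h0 h1 fun R _ => ?_)
      ((Ex_prod x fun i => if i ∈ Z then 0 else 1).le.trans ?_)
    · split_ifs with h
      · rw [prod_eq_one (s := I \ R) fun i hi => if_neg fun h' => (mem_sdiff.1 hi).2 (h h'),
          mul_one]
      · exact mul_nonneg (prod_nonneg fun i _ => zero_le_one.trans (hx i))
          (prod_nonneg fun i _ => by split_ifs <;> norm_num)
    · have e : p ^ Z.card = ∏ i ∈ I, if i ∈ Z then p else 1 := by
        rw [prod_ite_mem, inter_eq_right.2 hI, prod_const]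
      rw [e, Real.exp_sum, ← prod_mul_distrib]
      refine prod_le_prod (fun i _ => add_nonneg (mul_nonneg h0 (zero_le_one.trans (hx i)))
        (mul_nonneg (sub_nonneg.2 h1) (by split_ifs <;> norm_num))) fun i _ => ?_
      split_ifs with h
      · simp [hZ i h]
      · linarith [Real.add_one_le_exp (p * (x i - 1))]
  · refine (Ex_mono h0 h1 (G := fun _ => 0) fun R hR => (if_neg fun h => hI (h.trans hR)).le).trans
      ((Ex_const 0).le.trans (by positivity))

theorem Ex_sub_one (h0 : 0 ≤ p) (h1 : p ≤ 1) (Z : Finset ι) :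
    Ex p I (fun R => if Z ⊆ R then 1 else 0) ≤ p ^ Z.card := by
  simpa using Ex_sub (I := I) h0 h1 Z (x := fun _ => 1) (fun _ => le_rfl) fun _ _ => rfl

open Classical in
/-- every one of some disjoint families is hit -/
theorem Ex_all (h0 : 0 ≤ p) (h1 : p ≤ 1) {κ : Type} [DecidableEq κ] (A : Finset κ)
    (F : κ → Finset ι) (hd : ∀ y ∈ A, ∀ y' ∈ A, y ≠ y' → Disjoint (F y) (F y')) {δ : ℝ}
    (hδ : ∀ y ∈ A, p * (F y).card ≤ δ) (P : Finset ι → Prop) [DecidablePred P]
    (hP : ∀ R, P R → ∀ y ∈ A, ∃ g ∈ F y, g ∈ R) :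
    Ex p I (fun R => if P R then 1 else 0) ≤ δ ^ A.card := by
  refine le_trans (Ex_mono h0 h1 (G := fun R => ∑ φ ∈ A.pi F,
    if A.attach.image (fun y => φ y.1 y.2) ⊆ R then 1 else 0) fun R _ => ?_) ?_
  · split_ifs with h
    · choose φ hφ hφ' using hP R h
      refine le_trans (if_pos ?_).ge (single_le_sum (f := fun φ : ∀ y ∈ A, ι =>
        if A.attach.image (fun y => φ y.1 y.2) ⊆ R then (1 : ℝ) else 0)
        (fun _ _ => by split_ifs <;> norm_num) (mem_pi.2 hφ))
      exact image_subset_iff.2 fun y _ => hφ' _ _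
    · exact sum_nonneg fun _ _ => by split_ifs <;> norm_num
  · rw [Ex_sum]
    refine (sum_le_card_nsmul _ _ (p ^ A.card) fun φ hφ => (Ex_sub_one h0 h1 _).trans
      (le_of_eq ?_)).trans ?_
    · rw [card_image_of_injective _ fun y y' e => ?_, card_attach]
      by_contra hn
      exact disjoint_left.1 (hd _ y.2 _ y'.2 fun h => hn (Subtype.ext h)) (mem_pi.1 hφ _ y.2)
        (e ▸ mem_pi.1 hφ _ y'.2)
    · rw [card_pi, nsmul_eq_mul, Nat.cast_prod, ← prod_const, ← prod_const, ← prod_mul_distrib]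
      exact prod_le_prod (fun _ _ => by positivity) fun y hy => (mul_comm _ _).le.trans (hδ y hy)

open Classical in
/-- all chosen members of `N` are blocked -/
theorem Ex_bad (h0 : 0 ≤ p) (h1 : p ≤ 1) {N Z : Finset ι} (hN : N ⊆ I) (b : ι → ι → Prop)
    (hZ : Disjoint Z N) (hb : ∀ f ∈ N ∪ Z, ∀ x ∈ N, ¬ b f x)
    (hw : ∀ f ∈ I, p * (N.filter (b f)).card ≤ 1)
    (hd : ∀ x ∈ N, p * (I.filter (b · x)).card ≤ 1 / 4) (P : Finset ι → Prop) [DecidablePred P]
    (hP : ∀ R, P R → Z ⊆ R ∧ ∀ x ∈ N, x ∈ R → ∃ f ∈ R, b f x) :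
    Ex p I (fun R => if P R then 1 else 0) ≤
      p ^ Z.card * Real.exp (-(p * N.card / 2)) := by
  set w : ι → ℝ := fun f => p * (N.filter (b f)).card with hwd
  have w0 : ∀ f, 0 ≤ w f := fun f => by positivity
  rw [← union_sdiff_of_subset hN, Ex_union disjoint_sdiff]
  refine le_trans (Ex_mono h0 h1 (G := fun S => Real.exp (-(p * N.card)) *
    if Z ⊆ S then ∏ f ∈ S, Real.exp (w f) else 0) fun S hS => ?_) ?_
  · split_ifs with h
    · set D := S.biUnion fun f => N.filter (b f) with hD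
      refine le_trans (Ex_mono h0 h1 fun R hR => ?_)
        ((Ex_prod (fun i => if i ∈ D then 1 else 0) fun _ => 1).le.trans ?_)
      · split_ifs with h'
        · rw [prod_const_one, mul_one, prod_eq_one fun x hx => if_pos ?_]
          obtain ⟨f, hf, hfx⟩ := (hP _ h').2 x (hR hx) (mem_union_left _ hx)
          rcases mem_union.1 hf with hf | hf
          · exact absurd hfx (hb f (mem_union_left _ (hR hf)) x (hR hx))
          · exact mem_biUnion.2 ⟨f, hf, mem_filter.2 ⟨hR hx, hfx⟩⟩
        · exact mul_nonneg (prod_nonneg fun _ _ => by split_ifs <;> norm_num) (by simp)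
      · have a : ∏ i ∈ N, (p * (if i ∈ D then 1 else 0) + (1 - p) * 1) ≤
            ∏ i ∈ N, Real.exp (-p + if i ∈ D then p else 0) := by
          refine prod_le_prod (fun i _ => by split_ifs <;> linarith) fun i _ => ?_
          split_ifs
          · simp
          · linarith [Real.add_one_le_exp (-p + 0)]
        refine a.trans ?_
        rw [← Real.exp_sum, ← Real.exp_sum, ← Real.exp_add, Real.exp_le_exp, sum_add_distrib,
          sum_ite_mem, sum_const, sum_const, ← mul_sum, nsmul_eq_mul, nsmul_eq_mul]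
        have c : ((N ∩ D).card : ℝ) ≤ ∑ f ∈ S, ((N.filter (b f)).card : ℝ) := by
          exact_mod_cast (card_le_card inter_subset_right).trans card_biUnion_le
        nlinarith
    · refine (Ex_mono h0 h1 (G := fun _ => 0) fun R hR => (if_neg fun h' => h fun z hz =>
        (mem_union.1 ((hP _ h').1 hz)).resolve_left fun hz' => disjoint_left.1 hZ hz (hR hz')).le).trans
        ((Ex_const 0).le.trans (by simp))
  · rw [Ex_mul]
    refine (mul_le_mul_of_nonneg_left (Ex_sub h0 h1 Z (fun f => Real.one_le_exp (w0 f))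
      fun f hf => ?_) (Real.exp_pos _).le).trans ?_
    · simp only [hwd]
      rw [filter_eq_empty_iff.2 fun x hx => hb f (mem_union_right _ hf) x hx]
      simp
    rw [mul_left_comm, ← Real.exp_add]
    gcongr
    have a : ∑ f ∈ I \ N, p * (Real.exp (w f) - 1) ≤ ∑ f ∈ I, p * (2 * w f) := by
      refine (sum_le_sum fun f hf => ?_).trans (sum_le_sum_of_subset_of_nonneg sdiff_subset
        fun f _ _ => by have := w0 f; positivity)
      have := Real.abs_exp_sub_one_le (x := w f)
        (by rw [abs_of_nonneg (w0 f)]; exact hw f (mem_sdiff.1 hf).1)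
      rw [abs_of_nonneg (w0 f)] at this
      exact mul_le_mul_of_nonneg_left ((le_abs_self _).trans this) h0
    have c : ∑ f ∈ I, p * (2 * w f) = 2 * p * ∑ x ∈ N, p * (I.filter (b · x)).card := by
      simp only [hwd, card_filter, Nat.cast_sum, mul_sum]
      rw [sum_comm]
      exact sum_congr rfl fun _ _ => sum_congr rfl fun _ _ => by ring
    have d := sum_le_card_nsmul _ _ _ hd
    rw [nsmul_eq_mul] at d
    nlinarith

end Pool.Agent.Lib.MP_270b52_co.Rs
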