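import Pool.Agent.Lib.MP_270b52_co.Rs.B

/-! Counting lemmas. -/

set_option autoImplicit false

namespace Pool.Agent.Lib.MP_270b52_co.Rs

open Finset

variable {α : Type} [DecidableEq α]

theorem sum_choose_le (a k : ℕ) (h : 3 * k ≤ a) :
    ∑ m ∈ range (k + 1), a.choose m ≤ 2 * a.choose k := by
  induction k with
  | zero => simp
  | succ k ih =>
    rw [sum_range_succ]
    have e := Nat.choose_succ_right_eq a k
    have : 2 * a.choose k ≤ a.choose (k + 1) := by
      refine Nat.le_of_mul_le_mul_right ?_ (Nat.succ_pos k)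
      rw [Nat.succ_eq_add_one, e, mul_comm 2, mul_assoc]
      exact Nat.mul_le_mul_left _ (by omega)
    have := ih (by omega)
    omega

/-- subsets of `A` that miss at most `k` points -/
theorem card_near {A : Finset α} {a k : ℕ} (hA : A.card ≤ a) (h : 3 * k ≤ a)
    {F : Finset (Finset α)} (hF : ∀ g ∈ F, g ⊆ A ∧ A.card ≤ g.card + k) :
    F.card ≤ 2 * a.choose k := by
  refine le_trans (card_le_card_of_injOn (t := (range (k + 1)).biUnion fun m => powersetCard m A)
    (fun g => A \ g) (fun g hg => ?_) fun g hg g' hg' e => ?_) (card_biUnion_le.trans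
      (le_trans (sum_le_sum fun m _ => ?_) (sum_choose_le a k h)))
  · obtain ⟨h1, h2⟩ := hF g hg
    simp only [coe_biUnion, Set.mem_iUnion, mem_coe, mem_range, mem_powersetCard]
    exact ⟨_, by rw [card_sdiff_of_subset h1]; omega, sdiff_subset, rfl⟩
  · have := congrArg (A \ ·) e
    simpa only [Finset.sdiff_sdiff_eq_self (hF g hg).1, Finset.sdiff_sdiff_eq_self (hF g' hg').1]
      using this
  · rw [card_powersetCard]
    exact Nat.choose_le_choose _ hA

theorem sum_pow_inter {r : ℕ} (A : Finset (Fin r)) (x : ℝ) :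
    ∑ S : Finset (Fin r), x ^ (S ∩ A).card = ((1 + x) / 2) ^ A.card * 2 ^ r := by
  have := prod_one_add (s := (univ : Finset (Fin r))) (f := fun v => if v ∈ A then x else 1)
  simp only [prod_ite_mem, prod_const, powerset_univ] at this
  rw [← this]
  have e : ∀ v : Fin r, (1 + if v ∈ A then x else 1) = (if v ∈ A then (1 + x) / 2 else 1) * 2 :=
    fun v => by split_ifs <;> ring
  simp only [e, prod_mul_distrib, prod_ite_mem, prod_const, univ_inter, card_univ,
    Fintype.card_fin]

theorem tail_hi {r : ℕ} (A : Finset (Fin r)) (θ : ℕ) :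
    ((univ.filter fun S : Finset (Fin r) => θ < (S ∩ A).card).card : ℝ) * 3 ^ (θ + 1) ≤
      2 ^ A.card * 2 ^ r := by
  have := sum_pow_inter A 3
  rw [show ((1 : ℝ) + 3) / 2 = 2 by norm_num] at this
  rw [← this, ← nsmul_eq_mul]
  exact (card_nsmul_le_sum _ _ _ fun S hS => pow_le_pow_right₀ (by norm_num)
    (mem_filter.1 hS).2).trans (sum_le_sum_of_subset_of_nonneg (filter_subset _ _)
      fun _ _ _ => by positivity)

theorem tail_lo {r : ℕ} (A : Finset (Fin r)) (R : ℕ) :
    ((univ.filter fun S : Finset (Fin r) => (S ∩ A).card < R).card : ℝ) * (1 / 3) ^ R ≤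
      (2 / 3) ^ A.card * 2 ^ r := by
  have := sum_pow_inter A (1 / 3)
  rw [show ((1 : ℝ) + 1 / 3) / 2 = 2 / 3 by norm_num] at this
  rw [← this, ← nsmul_eq_mul]
  exact (card_nsmul_le_sum _ _ _ fun S hS => pow_le_pow_of_le_one (by norm_num) (by norm_num)
    (mem_filter.1 hS).2.le).trans (sum_le_sum_of_subset_of_nonneg (filter_subset _ _)
      fun _ _ _ => by positivity)

theorem sum_pow_choose (V : Finset α) (n k : ℕ) :
    ∑ Y ∈ V.powerset with Y.card ≤ k, n.choose (k - Y.card) ≤ (V.card + n).choose k := by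
  rw [sum_filter, sum_powerset_apply_card fun y => if y ≤ k then n.choose (k - y) else 0,
    Nat.add_choose_eq, Nat.sum_antidiagonal_eq_sum_range_succ_mk]
  simp only [smul_eq_mul, mul_ite, mul_zero]
  rw [← sum_filter]
  exact sum_le_sum_of_subset fun y hy => mem_range.2 (Nat.lt_succ_of_le (mem_filter.1 hy).2)

theorem pow_le_choose_add {t j R : ℕ} (h : j ≤ R) :
    (((t : ℝ) + 1) / R) ^ j ≤ (t + j).choose j := by
  have a := Nat.pow_le_choose (α := ℝ) j (t + j)
  rw [show t + j + 1 - j = t + 1 by omega] at a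
  push_cast at a
  refine le_trans ?_ a
  rw [div_pow]
  have : (j.factorial : ℝ) ≤ (R : ℝ) ^ j := by
    exact_mod_cast (Nat.factorial_le_pow j).trans (Nat.pow_le_pow_left h j)
  gcongr

theorem prod_tur {u w j l z : ℕ} {f g : ℕ → ℝ} (hf0 : ∀ b, 0 ≤ f b) (hg0 : ∀ b, 0 ≤ g b)
    (hf : ∀ b, f b * (u + j).choose j ≤ 64 ^ j * (u + j).choose (b + j))
    (hg : ∀ b, g b * (w + l).choose l ≤ 64 ^ l * (w + l).choose (b + l)) :
    (∑ b ∈ range (z + 1), f b * g (z - b)) * ((u + j).choose j * (w + l).choose l) ≤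
      64 ^ (j + l) * (u + w + (j + l)).choose (z + (j + l)) := by
  have v' : (∑ b ∈ range (z + 1), ((u + j).choose (b + j) : ℝ) * (w + l).choose (z - b + l)) ≤
      (u + w + (j + l)).choose (z + (j + l)) := by exact_mod_cast vander u w j l z
  refine le_trans ?_ (mul_le_mul_of_nonneg_left v' (by positivity))
  rw [sum_mul, mul_sum]
  refine sum_le_sum fun b _ => ?_
  calc _ = f b * ((u + j).choose j : ℝ) * (g (z - b) * (w + l).choose l) := by ring
    _ ≤ _ := mul_le_mul (hf b) (hg (z - b)) (mul_nonneg (hg0 _) (Nat.cast_nonneg _))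
      (by positivity)
    _ = _ := by ring

end Pool.Agent.Lib.MP_270b52_co.Rs
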