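import Pool.Agent.Lib.MP_270b52_co.Rs.D

/-! The family built from a random family of traces. -/

set_option autoImplicit false

namespace Pool.Agent.Lib.MP_270b52_co.Rs

open Finset

variable {r : ℕ}

/-- `g` is disjoint from `Y` and the two miss fewer than `k` points of `V` -/
def Blk (V : Finset (Fin r)) (k : ℕ) (g Y : Finset (Fin r)) : Prop :=
  Disjoint g Y ∧ V.card < g.card + Y.card + k

/-- the data of the construction -/
structure Dat (s R q t θ σ : ℕ) (U U₂ W₂ V : Finset (Fin r)) : Prop where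
  hr : r + 1 = 2 * s + R
  hU : U.card = (R + 1) * q + R
  q1 : (R + 1) * q ≤ s
  q2 : s ≤ (R + 1) * q + R
  sU : U₂ ⊆ U
  sW : W₂ ⊆ Uᶜ
  cU : U₂.card = t
  cW : W₂.card = t
  hV : V = (U₂ ∪ W₂)ᶜ
  n1 : θ + σ + R + t + 1 ≤ s
  n2 : 2 * t + θ ≤ s
  n3 : R ≤ σ

/-- balanced traces -/
def typ (θ : ℕ) (U V : Finset (Fin r)) : Finset (Finset (Fin r)) :=
  V.powerset.filter fun f => (f ∩ U).card ≤ θ ∧ (f ∩ Uᶜ).card ≤ θ

theorem card_sides (f A : Finset (Fin r)) : (f ∩ A).card + (f ∩ Aᶜ).card = f.card := by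
  rw [← sdiff_eq_inter_compl, card_inter_add_card_sdiff]

variable {s R q t θ σ : ℕ} {U U₂ W₂ V : Finset (Fin r)} {𝓡 : Finset (Finset (Fin r))}

theorem Dat.glue (D : Dat s R q t θ σ U U₂ W₂ V) {Z a b : Finset (Fin r)} (hZ : Z ⊆ V)
    (ha : a ⊆ U₂) (hb : b ⊆ W₂) : (Z ∪ (a ∪ b)) ∩ V = Z ∧
      (Z ∪ (a ∪ b)).card = Z.card + a.card + b.card ∧
      ((Z ∪ (a ∪ b)) ∩ U).card = (Z ∩ U).card + a.card := by
  have d1 : Disjoint V (a ∪ b) := disjoint_left.2 fun x hx hx' =>
    mem_compl.1 (D.hV ▸ hx) (union_subset_union ha hb hx')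
  have d2 : Disjoint U b := disjoint_left.2 fun x hx hx' => mem_compl.1 (D.sW (hb hx')) hx
  refine ⟨?_, ?_, ?_⟩
  · rw [union_inter_distrib_right, inter_eq_left.2 hZ, disjoint_iff_inter_eq_empty.1 d1.symm,
      union_empty]
  · rw [card_union_of_disjoint (d1.mono_left hZ),
      card_union_of_disjoint (d2.mono_left (ha.trans D.sU)), add_assoc]
  · rw [union_inter_distrib_right, union_inter_distrib_right, inter_eq_left.2 (ha.trans D.sU),
      disjoint_iff_inter_eq_empty.1 d2.symm, union_empty, card_union_of_disjoint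
        (d1.mono (inter_subset_left.trans hZ) subset_union_left)]

theorem Dat.split (D : Dat s R q t θ σ U U₂ W₂ V) (S : Finset (Fin r)) :
    S ∩ V ∪ (S ∩ U₂ ∪ S ∩ W₂) = S := by
  rw [← inter_union_distrib_left, ← inter_union_distrib_left, D.hV, union_comm, union_compl,
    inter_univ]

theorem Dat.cardV (D : Dat s R q t θ σ U U₂ W₂ V) : V.card + 2 * t = r := by
  have := (D.glue (Z := V) Subset.rfl Subset.rfl Subset.rfl).2.1
  rw [D.cU, D.cW, show V ∪ (U₂ ∪ W₂) = univ by rw [D.hV, union_comm, union_compl], card_univ,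
    Fintype.card_fin] at this
  omega

theorem Dat.side (D : Dat s R q t θ σ U U₂ W₂ V) {A : Finset (Fin r)} (hA : A = U ∨ A = Uᶜ) :
    θ + σ + R ≤ (V ∩ A).card := by
  have a := (D.glue (Z := V) Subset.rfl Subset.rfl Subset.rfl).2.2
  rw [show V ∪ (U₂ ∪ W₂) = univ by rw [D.hV, union_comm, union_compl], univ_inter, D.cU] at a
  have b := card_sides V U
  have := D.cardV
  have := D.hr
  have := D.hU
  have := D.q1
  have := D.q2
  have := D.n1
  rcases hA with rfl | rfl <;> omega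

theorem Dat.small (D : Dat s R q t θ σ U U₂ W₂ V) {A g Z : Finset (Fin r)} (hA : A = U ∨ A = Uᶜ)
    (hg : g ∈ typ θ U V) (hZ : Z ⊆ V) (h : (Z ∩ A).card ≤ σ) : ¬ Blk V R g Z := by
  rintro ⟨h1, h2⟩
  obtain ⟨g1, g2⟩ := mem_filter.1 hg
  have k : ∀ B : Finset (Fin r), (g ∩ B).card + (Z ∩ B).card ≤ (V ∩ B).card := fun B => by
    rw [← card_union_of_disjoint (h1.mono inter_subset_left inter_subset_left),
      ← union_inter_distrib_right]
    exact card_le_card (inter_subset_inter_right (union_subset (mem_powerset.1 g1) hZ))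
  have := k Aᶜ
  have := D.side hA
  have := card_sides g A
  have := card_sides Z A
  have := card_sides V A
  have : (g ∩ A).card ≤ θ := by
    rcases hA with rfl | rfl
    exacts [g2.1, g2.2]
  omega

/-- nothing chosen blocks `Y` -/
def Lev (V : Finset (Fin r)) (𝓡 : Finset (Finset (Fin r))) (k : ℕ) (Y : Finset (Fin r)) : Prop :=
  ∀ g ∈ 𝓡, ¬ Blk V k g Y

/-- a point can be removed without meeting a new blocker -/
def Free (s R t : ℕ) (U V : Finset (Fin r)) (𝓡 : Finset (Finset (Fin r))) : Prop :=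
  ∀ Y ⊆ V, s < Y.card + 2 * t → ∀ A, A = U ∨ A = Uᶜ → (Y ∩ A).Nonempty →
    ∃ y ∈ Y ∩ A, ∀ g ∈ 𝓡, y ∈ g → ¬ Blk V R g (Y.erase y)

theorem Free.iter (G : Free s R t U V 𝓡) {A : Finset (Fin r)} (hA : A = U ∨ A = Uᶜ) (n : ℕ) :
    ∀ (Y : Finset (Fin r)) (k : ℕ), Y ⊆ V → n ≤ (Y ∩ A).card → s + n ≤ Y.card + 2 * t →
      k + n ≤ R → Lev V 𝓡 k Y → ∃ Y' ⊆ Y, (Y' ∩ A).card + n = (Y ∩ A).card ∧
        Y'.card + n = Y.card ∧ Lev V 𝓡 (k + n) Y' := by
  induction n with
  | zero => exact fun Y k _ _ _ _ h => ⟨Y, Subset.rfl, rfl, rfl, h⟩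
  | succ n ih =>
    intro Y k h1 h2 h3 h4 h5
    obtain ⟨y, hy, hy'⟩ := G Y h1 (by omega) A hA (card_pos.1 (by omega))
    have c1 := card_erase_add_one (mem_inter.1 hy).1
    have c2 := card_erase_add_one hy
    rw [← erase_inter] at c2
    obtain ⟨Y', a1, a2, a3, a4⟩ := ih (Y.erase y) (k + 1) ((erase_subset _ _).trans h1) (by omega)
      (by omega) (by omega) fun g hg hb => by
        by_cases h : y ∈ g
        · exact hy' g hg h ⟨hb.1, by have := hb.2; omega⟩
        · refine h5 g hg ⟨disjoint_left.2 fun x hx hx' => disjoint_left.1 hb.1 hx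
            (mem_erase.2 ⟨fun e => h (e ▸ hx), hx'⟩), by have := hb.2; omega⟩
    exact ⟨Y', a1.trans (erase_subset _ _), by omega, by omega, by rwa [add_assoc, add_comm 1] at a4⟩

theorem Free.rem (G : Free s R t U V 𝓡) (Y : Finset (Fin r)) (j l : ℕ) : ∃ Y' : Finset (Fin r),
    Y ⊆ V → j ≤ (Y ∩ U).card → l ≤ (Y ∩ Uᶜ).card → s + R ≤ Y.card + 2 * t → j + l ≤ R →
      Lev V 𝓡 (R - (j + l)) Y → Y' ⊆ Y ∧ (Y' ∩ U).card + j = (Y ∩ U).card ∧
        Y'.card + (j + l) = Y.card ∧ Lev V 𝓡 R Y' := by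
  by_contra hn
  push Not at hn
  obtain ⟨h1, h2, h3, h4, h5, h6, -⟩ := hn ∅
  obtain ⟨Y₁, a1, a2, a3, a4⟩ := G.iter (Or.inl rfl) j Y _ h1 h2 (by omega) (by omega) h6
  have := card_sides Y U
  have := card_sides Y₁ U
  obtain ⟨Y₂, b1, b2, b3, b4⟩ := G.iter (Or.inr rfl) l Y₁ _ (a1.trans h1) (by omega) (by omega)
    (by omega) a4
  have := card_sides Y₂ U
  rw [show R - (j + l) + j + l = R by omega] at b4
  exact (hn Y₂).2.2.2.2.2.2 (b1.trans a1) (by omega) (by omega) b4

theorem lev_zero (hR : 𝓡 ⊆ typ θ U V) {Y : Finset (Fin r)} (hY : Y ⊆ V) : Lev V 𝓡 0 Y :=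
  fun g hg h => by
    have := card_le_card (union_subset (mem_powerset.1 (mem_filter.1 (hR hg)).1) hY)
    rw [card_union_of_disjoint h.1] at this
    have := h.2
    omega

theorem Dat.res (D : Dat s R q t θ σ U U₂ W₂ V) (S : Finset (Fin r)) :
    ∃ x j, j ≤ R ∧ (S ∩ U).card = (R + 1) * x + j ∧ (R + 1) * x ≤ s := by
  obtain ⟨x, j, hj, hx⟩ : ∃ x j, j ≤ R ∧ (S ∩ U).card = (R + 1) * x + j :=
    ⟨_, _, Nat.le_of_lt_succ (Nat.mod_lt _ R.succ_pos), (Nat.div_add_mod _ _).symm⟩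
  have a : (S ∩ U).card ≤ U.card := card_le_card inter_subset_right
  refine ⟨x, j, hj, hx, (Nat.mul_le_mul_left _ ?_).trans D.q1⟩
  by_contra hn
  have := Nat.mul_le_mul_left (R + 1) (Nat.succ_le_of_lt (not_le.1 hn))
  rw [Nat.mul_succ] at this
  have := D.hU
  omega

theorem Dat.crude (D : Dat s R q t θ σ U U₂ W₂ V) (hR : 𝓡 ⊆ typ θ U V) (G : Free s R t U V 𝓡)
    (S : Finset (Fin r)) : ∃ e : Finset (Fin r), S.card = s + R →
      e ⊆ S ∧ e.card = s ∧ R + 1 ∣ (e ∩ U).card ∧ Lev V 𝓡 R (e ∩ V) := by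
  by_cases hS : S.card = s + R
  swap
  · exact ⟨∅, fun h => absurd h hS⟩
  obtain ⟨x, j, hj, hx, hx'⟩ := D.res S
  obtain ⟨-, g2, g3⟩ := D.glue (Z := S ∩ V) (a := S ∩ U₂) (b := S ∩ W₂) inter_subset_right
    inter_subset_right inter_subset_right
  rw [D.split] at g2 g3
  by_cases h : R ≤ (S ∩ V ∩ U).card ∧ R ≤ (S ∩ V ∩ Uᶜ).card
  · obtain ⟨Y, hY⟩ := G.rem (S ∩ V) j (R - j)
    have c1 : (S ∩ U₂).card ≤ t := D.cU ▸ card_le_card inter_subset_right
    have c2 : (S ∩ W₂).card ≤ t := D.cW ▸ card_le_card inter_subset_right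
    obtain ⟨y1, y2, y3, y4⟩ := hY inter_subset_right (by omega) (by omega) (by omega) (by omega)
      (by rw [show R - (j + (R - j)) = 0 by omega]; exact lev_zero hR inter_subset_right)
    obtain ⟨k1, k2, k3⟩ := D.glue (Z := Y) (a := S ∩ U₂) (b := S ∩ W₂)
      (y1.trans inter_subset_right) inter_subset_right inter_subset_right
    exact ⟨_, fun _ => ⟨union_subset (y1.trans inter_subset_left)
      (union_subset inter_subset_left inter_subset_left), by omega, ⟨x, by omega⟩, k1.symm ▸ y4⟩⟩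
  · have := card_sides S U
    obtain ⟨a, a1, a2⟩ := exists_subset_card_eq (s := S ∩ U) (n := (R + 1) * x) (by omega)
    obtain ⟨b, b1, b2⟩ := exists_subset_card_eq (s := S ∩ Uᶜ) (n := s - (R + 1) * x) (by omega)
    have d : Disjoint U b := disjoint_left.2 fun z hz hz' => mem_compl.1 (mem_inter.1 (b1 hz')).2 hz
    have sub : a ∪ b ⊆ S := union_subset (a1.trans inter_subset_left) (b1.trans inter_subset_left)
    refine ⟨a ∪ b, fun _ => ⟨sub, ?_, ⟨x, ?_⟩, fun g hg => ?_⟩⟩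
    · rw [card_union_of_disjoint (d.mono_left (a1.trans inter_subset_right))]
      omega
    · rw [union_inter_distrib_right, inter_eq_left.2 (a1.trans inter_subset_right),
        disjoint_iff_inter_eq_empty.1 d.symm, union_empty, a2]
    · have k : ∀ A : Finset (Fin r), ((a ∪ b) ∩ V ∩ A).card ≤ (S ∩ V ∩ A).card := fun A =>
        card_le_card (inter_subset_inter_right (inter_subset_inter_right sub))
      have := D.n3
      rcases not_and_or.1 h with h | h
      · exact D.small (Or.inl rfl) (hR hg) inter_subset_right (by have := k U; omega)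
      · exact D.small (Or.inr rfl) (hR hg) inter_subset_right (by have := k Uᶜ; omega)

/-- no unblocked chosen trace in `Y` -/
def Bad (V : Finset (Fin r)) (𝓡 : Finset (Finset (Fin r))) (R : ℕ) (Y : Finset (Fin r)) : Prop :=
  ∀ x ∈ powersetCard (Y.card - R) Y, x ∈ 𝓡 → ∃ f ∈ 𝓡, Blk V R f x

/-- the exceptional sets -/
def exc (R θ : ℕ) (U U₂ W₂ V : Finset (Fin r)) : Finset (Finset (Fin r)) :=
  univ.filter fun S => θ < (S ∩ (V ∩ U)).card ∨ θ < (S ∩ (V ∩ Uᶜ)).card ∨ (S ∩ U₂).card < R ∨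
    (S ∩ W₂).card < R

/-- the size of the second level -/
def cost (s R : ℕ) (U₂ W₂ : Finset (Fin r)) (T : Finset (Fin r) → ℕ → ℕ → Finset (Finset (Fin r)))
    (y i : ℕ) : ℕ :=
  ∑ j ∈ range (R + 1), ∑ b ∈ range (s + i - y + 1),
    (T U₂ b (j - min i j)).card * (T W₂ (s + i - y - b) (R - j - (i - min i j))).card

open Classical in
theorem Dat.det (D : Dat s R q t θ σ U U₂ W₂ V) (hR : 𝓡 ⊆ typ θ U V) (G : Free s R t U V 𝓡)
    {T : Finset (Fin r) → ℕ → ℕ → Finset (Finset (Fin r))} (hT : ∀ A b j, Tur A b j (T A b j)) :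
    ∃ H : Finset (Finset (Fin r)), (∀ e ∈ H, e.card = s) ∧ (∀ e ∈ H, ∀ f ∈ H, (e ∩ f).Nonempty) ∧
      (∀ C : Finset (Fin r), C.card < s → ∃ e ∈ H, Disjoint e C) ∧
      H.card ≤ ((powersetCard s univ).filter fun e => e ∩ V ∈ 𝓡).card +
        (∑ Y ∈ typ θ U V with s + R ≤ Y.card + 2 * t ∧ Y.card ≤ s, ∑ i ∈ range (R + 1),
          if Bad V 𝓡 R Y ∧ (i = 0 ∨ ¬ Lev V 𝓡 (R + 1 - i) Y) then cost s R U₂ W₂ T Y.card i
            else 0) + (exc R θ U U₂ W₂ V).card := by
  choose ρ hρ using G.rem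
  choose γ hγ using D.crude hR G
  set G₁ := (powersetCard s univ).filter fun e : Finset (Fin r) => e ∩ V ∈ 𝓡 with hG₁
  set G₂ := ((typ θ U V).filter fun Y => s + R ≤ Y.card + 2 * t ∧ Y.card ≤ s).biUnion fun Y =>
    ((range (R + 1)).filter fun i => Bad V 𝓡 R Y ∧ (i = 0 ∨ ¬ Lev V 𝓡 (R + 1 - i) Y)).biUnion
      fun i => (range (R + 1)).biUnion fun j => (range (s + i - Y.card + 1)).biUnion fun b =>
        (image₂ (· ∪ ·) (T U₂ b (j - min i j))
          (T W₂ (s + i - Y.card - b) (R - j - (i - min i j)))).image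
            (ρ Y (min i j) (i - min i j) ∪ ·) with hG₂
  refine ⟨(G₁ ∪ G₂ ∪ (exc R θ U U₂ W₂ V).image γ).filter fun e => e.card = s ∧ Lev V 𝓡 R (e ∩ V) ∧
    (e ∩ V ∈ 𝓡 ∨ R + 1 ∣ (e ∩ U).card), fun e he => (mem_filter.1 he).2.1, fun e he f hf => ?_,
    fun C hC => ?_, (card_filter_le _ _).trans ((card_union_le _ _).trans (Nat.add_le_add
      ((card_union_le _ _).trans (Nat.add_le_add_left ?_ _)) card_image_le))⟩
  · obtain ⟨e1, e2, e3⟩ := (mem_filter.1 he).2
    obtain ⟨f1, f2, f3⟩ := (mem_filter.1 hf).2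
    by_contra hn
    have hd : Disjoint e f := disjoint_iff_inter_eq_empty.2 (not_nonempty_iff_eq_empty.1 hn)
    have hb : V.card < (e ∩ V).card + (f ∩ V).card + R := by
      have a : (e ∩ Vᶜ).card + (f ∩ Vᶜ).card ≤ Vᶜ.card := by
        rw [← card_union_of_disjoint (hd.mono inter_subset_left inter_subset_left)]
        exact card_le_card (union_subset inter_subset_right inter_subset_right)
      have := card_add_card_compl V
      rw [Fintype.card_fin] at this
      have := card_sides e V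
      have := card_sides f V
      have := D.hr
      omega
    have hd' : Disjoint (e ∩ V) (f ∩ V) := hd.mono inter_subset_left inter_subset_left
    exact hn (res_inter D.hr D.hU e1 f1 (e3.resolve_left fun h => f2 _ h ⟨hd', hb⟩)
      (f3.resolve_left fun h => e2 _ h ⟨hd'.symm, by omega⟩))
  · have := D.hr
    obtain ⟨S, S1, S2⟩ := exists_subset_card_eq (s := Cᶜ) (n := s + R)
      (by rw [card_compl, Fintype.card_fin]; omega)
    suffices h : ∃ e ⊆ S, e ∈ G₁ ∪ G₂ ∪ (exc R θ U U₂ W₂ V).image γ ∧ e.card = s ∧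
        Lev V 𝓡 R (e ∩ V) ∧ (e ∩ V ∈ 𝓡 ∨ R + 1 ∣ (e ∩ U).card) from
      let ⟨e, h1, h2⟩ := h
      ⟨e, mem_filter.2 h2, disjoint_left.2 fun z hz => mem_compl.1 (S1 (h1 hz))⟩
    by_cases hE : S ∈ exc R θ U U₂ W₂ V
    · obtain ⟨a1, a2, a3, a4⟩ := hγ S S2
      exact ⟨_, a1, mem_union_right _ (mem_image_of_mem _ hE), a2, a4, Or.inr a3⟩
    simp only [exc, mem_filter, mem_univ, true_and, not_or, not_lt, ← inter_assoc] at hE
    obtain ⟨E1, E2, E3, E4⟩ := hE
    obtain ⟨-, g2, g3⟩ := D.glue (Z := S ∩ V) (a := S ∩ U₂) (b := S ∩ W₂) inter_subset_right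
      inter_subset_right inter_subset_right
    rw [D.split] at g2 g3
    have c1 : (S ∩ U₂).card ≤ t := D.cU ▸ card_le_card inter_subset_right
    have c2 : (S ∩ W₂).card ≤ t := D.cW ▸ card_le_card inter_subset_right
    by_cases hB : Bad V 𝓡 R (S ∩ V)
    · have hex : ∃ i, Lev V 𝓡 (R - i) (S ∩ V) :=
        ⟨R, by rw [Nat.sub_self]; exact lev_zero hR inter_subset_right⟩
      have i1 : Nat.find hex ≤ R :=
        Nat.find_min' hex (by rw [Nat.sub_self]; exact lev_zero hR inter_subset_right)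
      have i2 := Nat.find_spec hex
      have i3 : Nat.find hex = 0 ∨ ¬ Lev V 𝓡 (R + 1 - Nat.find hex) (S ∩ V) := by
        refine (Nat.eq_zero_or_pos _).imp_right fun h => ?_
        have := Nat.find_min hex (m := Nat.find hex - 1) (by omega)
        rwa [show R - (Nat.find hex - 1) = R + 1 - Nat.find hex by omega] at this
      generalize Nat.find hex = i at i1 i2 i3
      obtain ⟨x, j, hj, hx, -⟩ := D.res S
      have := card_sides (S ∩ V) U
      have := D.n2
      obtain ⟨y1, y2, y3, y4⟩ := hρ (S ∩ V) (min i j) (i - min i j) inter_subset_right (by omega)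
        (by omega) (by omega) (by omega)
        (by rwa [show min i j + (i - min i j) = i by omega])
      obtain ⟨a, a1, a2⟩ := (hT U₂ ((S ∩ U₂).card - (j - min i j)) (j - min i j)).2 (S ∩ U₂)
        inter_subset_right (by omega)
      obtain ⟨b, b1, b2⟩ := (hT W₂ (s + i - (S ∩ V).card - ((S ∩ U₂).card - (j - min i j)))
        (R - j - (i - min i j))).2 (S ∩ W₂) inter_subset_right (by omega)
      have a3 := (mem_powersetCard.1 ((hT _ _ _).1 a1)).2
      have b3 := (mem_powersetCard.1 ((hT _ _ _).1 b1)).2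
      obtain ⟨k1, k2, k3⟩ := D.glue (y1.trans inter_subset_right) (a2.trans inter_subset_right)
        (b2.trans inter_subset_right)
      refine ⟨_, union_subset (y1.trans inter_subset_left) (union_subset
        (a2.trans inter_subset_left) (b2.trans inter_subset_left)),
        mem_union_left _ (mem_union_right _ ?_), by omega, k1.symm ▸ y4, Or.inr ⟨x, by omega⟩⟩
      refine mem_biUnion.2 ⟨S ∩ V, mem_filter.2 ⟨mem_filter.2
        ⟨mem_powerset.2 inter_subset_right, E1, E2⟩, by omega, by omega⟩, mem_biUnion.2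
        ⟨i, mem_filter.2 ⟨mem_range.2 (by omega), hB, i3⟩, mem_biUnion.2 ⟨j, mem_range.2 (by omega),
        mem_biUnion.2 ⟨_, mem_range.2 (by omega), mem_image_of_mem _ (mem_image₂_of_mem a1 b1)⟩⟩⟩⟩
    · simp only [Bad, not_forall, not_exists, not_and] at hB
      obtain ⟨x, x1, x2, x3⟩ := hB
      obtain ⟨x4, x5⟩ := mem_powersetCard.1 x1
      obtain ⟨k1, k2, -⟩ := D.glue (Z := x) (a := S ∩ U₂) (b := S ∩ W₂)
        (x4.trans inter_subset_right) inter_subset_right inter_subset_right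
      have := D.n2
      have := D.n1
      have hc : (x ∪ (S ∩ U₂ ∪ S ∩ W₂)).card = s := by omega
      exact ⟨_, union_subset (x4.trans inter_subset_left)
        (union_subset inter_subset_left inter_subset_left), mem_union_left _ (mem_union_left _
          (mem_filter.2 ⟨mem_powersetCard.2 ⟨subset_univ _, hc⟩, k1.symm ▸ x2⟩)), hc,
        k1.symm ▸ x3, Or.inl (k1.symm ▸ x2)⟩
  · refine card_biUnion_le.trans (sum_le_sum fun Y _ => card_biUnion_le.trans ?_)
    rw [sum_filter]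
    refine sum_le_sum fun i _ => ?_
    split_ifs
    · exact card_biUnion_le.trans (sum_le_sum fun j _ => card_biUnion_le.trans
        (sum_le_sum fun b _ => card_image_le.trans (card_image₂_le _ _ _)))
    · rfl

end Pool.Agent.Lib.MP_270b52_co.Rs
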