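import Pool.Agent.Lib.MP_270b52_co.Rs.E
import Pool.Agent.Lib.MP_270b52_co.Rs.C

/-! The choice of the random family of traces. -/

set_option autoImplicit false

namespace Pool.Agent.Lib.MP_270b52_co.Rs

open Finset

variable {r s R q t θ σ : ℕ} {U U₂ W₂ V : Finset (Fin r)} {p δ : ℝ}

theorem blk_card {Z : Finset (Fin r)} {a k : ℕ} (hZ : Z ⊆ V) (ha : V.card ≤ Z.card + a)
    (h : 3 * k ≤ a) {F : Finset (Finset (Fin r))} (hF : ∀ g ∈ F, g ⊆ V ∧ Blk V (k + 1) g Z) :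
    F.card ≤ 2 * a.choose k :=
  card_near (A := V \ Z) (by rw [card_sdiff_of_subset hZ]; omega) h fun g hg =>
    ⟨subset_sdiff.2 ⟨(hF g hg).1, (hF g hg).2.1⟩, by
      have := (hF g hg).2.2
      rw [card_sdiff_of_subset hZ]
      omega⟩

theorem typ_sub {g : Finset (Fin r)} (h : g ∈ typ θ U V) : g ⊆ V := mem_powerset.1 (mem_filter.1 h).1

open Classical in
theorem Dat.ex_bad (D : Dat s R q t θ σ U U₂ W₂ V) (hR : 1 ≤ R) (h3 : 2 * t + 3 * R ≤ s)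
    (h0 : 0 ≤ p) (h1 : p ≤ 1) (hδ : p * (2 * (s + R).choose (R - 1) : ℕ) ≤ 1 / 4)
    {Y Z : _} (hY : Y ∈ typ θ U V) (y1 : s + R ≤ Y.card + 2 * t) (y2 : Y.card ≤ s)
    (hZ : ∀ g ∈ Z, g ⊆ V ∧ Blk V R g Y) :
    Ex p (typ θ U V) (fun 𝓡 => if Z ⊆ 𝓡 ∧ Bad V 𝓡 R Y then 1 else 0) ≤
      p ^ Z.card * Real.exp (-(p * (s + R - 2 * t).choose R / 2)) := by
  have hV := D.cardV
  have hr := D.hr
  have Y1 := typ_sub hY
  have key : ∀ {W : Finset (Fin r)} {F : Finset (Finset (Fin r))}, W ⊆ V →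
      V.card ≤ W.card + (s + R) → (∀ g ∈ F, g ⊆ V ∧ Blk V R g W) → p * F.card ≤ 1 / 4 :=
    fun a b c => le_trans (mul_le_mul_of_nonneg_left (Nat.cast_le.2 (blk_card a b (by omega)
      (by rwa [Nat.sub_add_cancel hR]))) h0) hδ
  have := Ex_bad (I := typ θ U V) (N := powersetCard (Y.card - R) Y) (Z := Z) h0 h1
    (fun x hx => ?_) (Blk V R) (disjoint_left.2 fun g hg hg' => ?_) (fun f hf x hx hb => ?_)
    (fun f hf => ?_) (fun x hx => ?_) (fun 𝓡 => Z ⊆ 𝓡 ∧ Bad V 𝓡 R Y) fun _ h => h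
  · refine this.trans ?_
    rw [card_powersetCard, Nat.choose_symm (by omega)]
    have : (s + R - 2 * t).choose R ≤ Y.card.choose R := Nat.choose_le_choose _ (by omega)
    gcongr
  · have x1 := (mem_powersetCard.1 hx).1
    obtain ⟨-, a, b⟩ := mem_filter.1 hY
    exact mem_filter.2 ⟨mem_powerset.2 (x1.trans Y1),
      (card_le_card (inter_subset_inter_right x1)).trans a,
      (card_le_card (inter_subset_inter_right x1)).trans b⟩
  · obtain ⟨-, a, b⟩ := hZ g hg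
    rw [(disjoint_self_iff_empty g).1 (a.mono_right (mem_powersetCard.1 hg').1), card_empty] at b
    omega
  · obtain ⟨x1, x2⟩ := mem_powersetCard.1 hx
    have := hb.2
    rcases mem_union.1 hf with hf | hf
    · have := card_le_card (union_subset (mem_powersetCard.1 hf).1 x1)
      rw [card_union_of_disjoint hb.1] at this
      omega
    · have := card_le_card (union_subset (hZ f hf).1 Y1)
      rw [card_union_of_disjoint (hZ f hf).2.1] at this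
      omega
  · rcases (filter (Blk V R f) (powersetCard (Y.card - R) Y)).eq_empty_or_nonempty with h | ⟨x, hx⟩
    · rw [h]
      simp
    · obtain ⟨a, b⟩ := mem_filter.1 hx
      have := (mem_powersetCard.1 a).2
      have := b.2
      refine (key (typ_sub hf) (by omega) fun g hg => ?_).trans (by norm_num)
      obtain ⟨a, b⟩ := mem_filter.1 hg
      exact ⟨(mem_powersetCard.1 a).1.trans Y1, b.1.symm, by have := b.2; omega⟩
  · obtain ⟨x1, x2⟩ := mem_powersetCard.1 hx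
    exact key (x1.trans Y1) (by omega) fun g hg => ⟨typ_sub (mem_filter.1 hg).1, (mem_filter.1 hg).2⟩

open Classical in
theorem Dat.ex_trig (D : Dat s R q t θ σ U U₂ W₂ V) (hR : 1 ≤ R) (h3 : 2 * t + 3 * R ≤ s)
    (h0 : 0 ≤ p) (h1 : p ≤ 1) (hδ : p * (2 * (s + R).choose (R - 1) : ℕ) ≤ 1 / 4)
    {Y : _} (hY : Y ∈ typ θ U V) (y1 : s + R ≤ Y.card + 2 * t) (y2 : Y.card ≤ s) {i : ℕ}
    (hi : i ≤ R) : Ex p (typ θ U V)
      (fun 𝓡 => if Bad V 𝓡 R Y ∧ (i = 0 ∨ ¬ Lev V 𝓡 (R + 1 - i) Y) then 1 else 0) ≤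
      (if i = 0 then 1 else p * (2 * (s + R).choose (R - i) : ℕ)) *
        Real.exp (-(p * (s + R - 2 * t).choose R / 2)) := by
  split_ifs with h
  · simpa [h] using D.ex_bad hR h3 h0 h1 hδ hY y1 y2 (Z := ∅) (by simp)
  have hV := D.cardV
  have hr := D.hr
  set F := (typ θ U V).filter fun g => Blk V (R - i + 1) g Y with hF
  have hc : F.card ≤ 2 * (s + R).choose (R - i) := blk_card (typ_sub hY) (by omega) (by omega)
    fun g hg => ⟨typ_sub (mem_filter.1 hg).1, (mem_filter.1 hg).2⟩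
  refine le_trans (Ex_mono h0 h1 (G := fun 𝓡 => ∑ g ∈ F,
    if {g} ⊆ 𝓡 ∧ Bad V 𝓡 R Y then 1 else 0) fun 𝓡 h𝓡 => ?_) ?_
  · split_ifs with h'
    · have := h'.2.resolve_left h
      simp only [Lev, not_forall, not_not] at this
      obtain ⟨g, g1, g2⟩ := this
      rw [show R + 1 - i = R - i + 1 by omega] at g2
      exact le_trans (if_pos ⟨singleton_subset_iff.2 g1, h'.1⟩).ge (single_le_sum
        (f := fun g => if {g} ⊆ 𝓡 ∧ Bad V 𝓡 R Y then (1 : ℝ) else 0)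
        (fun _ _ => by split_ifs <;> norm_num) (mem_filter.2 ⟨h𝓡 g1, g2⟩))
    · exact sum_nonneg fun _ _ => by split_ifs <;> norm_num
  · rw [Ex_sum]
    refine (sum_le_card_nsmul _ _ _ fun g hg => (D.ex_bad hR h3 h0 h1 hδ hY y1 y2 (Z := {g})
      fun g' hg' => ?_).trans_eq (by rw [card_singleton, pow_one])).trans ?_
    · obtain rfl := mem_singleton.1 hg'
      obtain ⟨a, b⟩ := mem_filter.1 hg
      exact ⟨typ_sub a, b.1, by have := b.2; omega⟩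
    · rw [nsmul_eq_mul, ← mul_assoc, mul_comm _ p]
      gcongr

open Classical in
theorem Dat.prob (D : Dat s R q t θ σ U U₂ W₂ V) (hR : 1 ≤ R) (h3 : 2 * t + 3 * R ≤ s)
    (h0 : 0 ≤ p) (h1 : p ≤ 1) (hδ : p * (2 * (s + R).choose (R - 1) : ℕ) ≤ δ) (hδ' : δ ≤ 1 / 4)
    (κ : ℕ → ℕ → ℕ) {M : ℝ} (hM0 : 0 ≤ M)
    (hM : p * r.choose s + (∑ i ∈ range (R + 1),
      (if i = 0 then 1 else p * (2 * (s + R).choose (R - i) : ℕ)) *
        Real.exp (-(p * (s + R - 2 * t).choose R / 2)) *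
          ∑ Y ∈ typ θ U V with s + R ≤ Y.card + 2 * t ∧ Y.card ≤ s, (κ Y.card i : ℝ)) +
      M * (2 * (2 ^ r * δ ^ σ)) < M) :
    ∃ 𝓡 ⊆ typ θ U V, Free s R t U V 𝓡 ∧
      ((((powersetCard s univ).filter fun e => e ∩ V ∈ 𝓡).card +
        ∑ Y ∈ typ θ U V with s + R ≤ Y.card + 2 * t ∧ Y.card ≤ s, ∑ i ∈ range (R + 1),
          if Bad V 𝓡 R Y ∧ (i = 0 ∨ ¬ Lev V 𝓡 (R + 1 - i) Y) then κ Y.card i else 0 : ℕ) : ℝ) ≤
        M := by
  have hV := D.cardV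
  have hr := D.hr
  have hδ0 : 0 ≤ δ := le_trans (by positivity) hδ
  set F : Finset (Fin r) → Fin r → Finset (Finset (Fin r)) := fun Y y =>
    (typ θ U V).filter fun g => y ∈ g ∧ Blk V R g (Y.erase y) with hF
  set Ψ : Finset (Fin r) → Finset (Finset (Fin r)) → ℝ := fun A 𝓡 =>
    ∑ Y ∈ V.powerset with s < Y.card + 2 * t ∧ σ < (Y ∩ A).card,
      if ∀ y ∈ Y ∩ A, ∃ g ∈ F Y y, g ∈ 𝓡 then 1 else 0 with hΨ
  have Ψ0 : ∀ A 𝓡, 0 ≤ Ψ A 𝓡 := fun A 𝓡 => sum_nonneg fun _ _ => by split_ifs <;> norm_num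
  have eΨ : ∀ A, Ex p (typ θ U V) (Ψ A) ≤ 2 ^ r * δ ^ σ := fun A => by
    rw [hΨ, Ex_sum]
    refine (sum_le_card_nsmul _ _ (δ ^ σ) fun Y hY => ?_).trans ?_
    · obtain ⟨a, b, c⟩ := mem_filter.1 hY
      refine (Ex_all h0 h1 (Y ∩ A) (F Y) (fun y _ y' hy' hne => disjoint_left.2 fun g hg hg' =>
        disjoint_left.1 (mem_filter.1 hg).2.2.1 (mem_filter.1 hg').2.1
          (mem_erase.2 ⟨hne.symm, (mem_inter.1 hy').1⟩)) (fun y hy => ?_) _ fun _ h => h).trans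
        (pow_le_pow_of_le_one hδ0 (hδ'.trans (by norm_num)) c.le)
      have := card_erase_add_one (mem_inter.1 hy).1
      refine le_trans (mul_le_mul_of_nonneg_left (Nat.cast_le.2 (blk_card
        ((erase_subset y Y).trans (mem_powerset.1 a)) (by omega) (by omega) fun g hg => ?_)) h0) hδ
      rw [Nat.sub_add_cancel hR]
      exact ⟨typ_sub (mem_filter.1 hg).1, (mem_filter.1 hg).2.2⟩
    · rw [nsmul_eq_mul]
      have : ((V.powerset.filter fun Y => s < Y.card + 2 * t ∧ σ < (Y ∩ A).card).card : ℝ) ≤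
          2 ^ r := by
        exact_mod_cast (card_filter_le _ _).trans ((card_powerset V).le.trans
          (Nat.pow_le_pow_right two_pos (by omega)))
      gcongr
  obtain ⟨𝓡, h𝓡, hle⟩ := exists_le_Ex (I := typ θ U V) h0 h1 fun 𝓡 =>
    (∑ e ∈ powersetCard s univ, if {e ∩ V} ⊆ 𝓡 then 1 else 0) +
      (∑ i ∈ range (R + 1), ∑ Y ∈ typ θ U V with s + R ≤ Y.card + 2 * t ∧ Y.card ≤ s,
        (κ Y.card i : ℝ) * if Bad V 𝓡 R Y ∧ (i = 0 ∨ ¬ Lev V 𝓡 (R + 1 - i) Y) then 1 else 0) +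
      M * (Ψ U 𝓡 + Ψ Uᶜ 𝓡)
  have hlt := hle.trans_lt (lt_of_le_of_lt ?_ hM)
  · have e1 : (∑ e ∈ powersetCard s univ, if {e ∩ V} ⊆ 𝓡 then (1 : ℝ) else 0) =
        ((powersetCard s univ).filter fun e => e ∩ V ∈ 𝓡).card := by
      simp only [singleton_subset_iff, sum_boole]
    have e2 : (∑ i ∈ range (R + 1), ∑ Y ∈ typ θ U V with s + R ≤ Y.card + 2 * t ∧ Y.card ≤ s,
        (κ Y.card i : ℝ) * if Bad V 𝓡 R Y ∧ (i = 0 ∨ ¬ Lev V 𝓡 (R + 1 - i) Y) then 1 else 0) =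
        (∑ Y ∈ typ θ U V with s + R ≤ Y.card + 2 * t ∧ Y.card ≤ s, ∑ i ∈ range (R + 1),
          if Bad V 𝓡 R Y ∧ (i = 0 ∨ ¬ Lev V 𝓡 (R + 1 - i) Y) then κ Y.card i else 0 : ℕ) := by
      rw [sum_comm]
      simp only [mul_ite, mul_one, mul_zero, Nat.cast_sum, Nat.cast_ite, Nat.cast_zero]
    rw [e1, e2, ← Nat.cast_add] at hlt
    have a := Ψ0 U 𝓡
    have b := Ψ0 Uᶜ 𝓡
    refine ⟨𝓡, h𝓡, fun Y Y1 Y2 A hA hne => ?_, by nlinarith⟩
    by_cases hs : (Y ∩ A).card ≤ σ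
    · obtain ⟨y, hy⟩ := hne
      exact ⟨y, hy, fun g hg _ => D.small hA (h𝓡 hg) ((erase_subset _ _).trans Y1)
        ((card_le_card (inter_subset_inter_right (erase_subset _ _))).trans hs)⟩
    by_contra hn
    push Not at hn
    have c : 1 ≤ Ψ A 𝓡 := le_trans (if_pos fun y hy => let ⟨g, g1, g2⟩ := hn y hy
      ⟨g, mem_filter.2 ⟨h𝓡 g1, g2⟩, g1⟩).ge (single_le_sum (f := fun Y =>
        if ∀ y ∈ Y ∩ A, ∃ g ∈ F Y y, g ∈ 𝓡 then (1 : ℝ) else 0)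
        (fun _ _ => by split_ifs <;> norm_num)
        (mem_filter.2 ⟨mem_powerset.2 Y1, Y2, not_le.1 hs⟩))
    have d : 1 ≤ Ψ U 𝓡 + Ψ Uᶜ 𝓡 := by rcases hA with rfl | rfl <;> linarith
    have := mul_le_mul_of_nonneg_left d hM0
    linarith [Nat.cast_nonneg (α := ℝ) (((powersetCard s univ).filter fun e => e ∩ V ∈ 𝓡).card +
      ∑ Y ∈ typ θ U V with s + R ≤ Y.card + 2 * t ∧ Y.card ≤ s, ∑ i ∈ range (R + 1),
        if Bad V 𝓡 R Y ∧ (i = 0 ∨ ¬ Lev V 𝓡 (R + 1 - i) Y) then κ Y.card i else 0)]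
  · rw [Ex_add, Ex_add, Ex_mul, Ex_add, Ex_sum, Ex_sum]
    refine add_le_add (add_le_add ?_ (sum_le_sum fun i hi => ?_))
      (mul_le_mul_of_nonneg_left (by linarith [eΨ U, eΨ Uᶜ]) hM0)
    · refine (sum_le_card_nsmul _ _ p fun e _ => (Ex_sub_one h0 h1 _).trans_eq (by simp)).trans ?_
      rw [card_powersetCard, card_univ, Fintype.card_fin, nsmul_eq_mul, mul_comm]
    · rw [Ex_sum, mul_sum]
      refine sum_le_sum fun Y hY => ?_
      obtain ⟨a, b, c⟩ := mem_filter.1 hY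
      rw [Ex_mul, mul_comm]
      exact mul_le_mul_of_nonneg_right (D.ex_trig hR h3 h0 h1 (hδ.trans hδ') a b c
        (Nat.le_of_lt_succ (mem_range.1 hi))) (Nat.cast_nonneg _)

end Pool.Agent.Lib.MP_270b52_co.Rs
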