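import Pool.Agent.Lib.MP_270b52_co.Rs.F

/-! Numerical estimates. -/

set_option autoImplicit false

namespace Pool.Agent.Lib.MP_270b52_co.Rs

open Finset

variable {r s R q t θ σ : ℕ} {U U₂ W₂ V : Finset (Fin r)}

theorem Dat.cost_le (D : Dat s R q t θ σ U U₂ W₂ V)
    {T : Finset (Fin r) → ℕ → ℕ → Finset (Finset (Fin r))}
    (hT : ∀ A b j, ((T A b j).card : ℝ) * (A.card + j).choose j ≤
      64 ^ j * (A.card + j).choose (b + j)) {i : ℕ} (hi : i ≤ R) :
    (∑ Y ∈ typ θ U V with s + R ≤ Y.card + 2 * t ∧ Y.card ≤ s, (cost s R U₂ W₂ T Y.card i : ℝ)) *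
      ((t + 1) / R) ^ (R - i) ≤ (R + 1) * 64 ^ R * (r + R).choose (s + R) := by
  have a : ∀ y ≤ s, (cost s R U₂ W₂ T y i : ℝ) * ((t + 1) / R) ^ (R - i) ≤
      (R + 1) * 64 ^ R * (2 * t + R).choose (s + R - y) := fun y hy => by
    simp only [cost, Nat.cast_sum, Nat.cast_mul]
    rw [sum_mul]
    refine (sum_le_card_nsmul _ _ ((64 : ℝ) ^ R * ((2 * t + R).choose (s + R - y) : ℝ))
      fun j hj => ?_).trans (le_of_eq ?_)
    swap
    · rw [card_range, nsmul_eq_mul, mul_assoc]
      push_cast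
      rfl
    have := mem_range.1 hj
    generalize hj' : j - min i j = j'
    generalize hl' : R - j - (i - min i j) = l'
    have e : R - i = j' + l' := by omega
    have b := prod_tur (u := t) (w := t) (j := j') (l := l') (z := s + i - y)
      (f := fun b => (T U₂ b j').card) (g := fun b => (T W₂ b l').card)
      (fun _ => Nat.cast_nonneg _) (fun _ => Nat.cast_nonneg _)
      (fun b => D.cU ▸ hT U₂ b j') fun b => D.cW ▸ hT W₂ b l'
    rw [show s + i - y + (j' + l') = s + R - y by omega] at b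
    have c1 := pow_le_choose_add (t := t) (show j' ≤ R by omega)
    have c2 := pow_le_choose_add (t := t) (show l' ≤ R by omega)
    have c3 : (t + t + (j' + l')).choose (s + R - y) ≤ (2 * t + R).choose (s + R - y) :=
      Nat.choose_le_choose _ (by omega)
    rw [e, pow_add]
    refine le_trans ?_ (b.trans ?_)
    · gcongr
    · gcongr
      · norm_num
      · omega
  rw [sum_mul]
  refine (sum_le_sum fun Y hY => a _ (mem_filter.1 hY).2.2).trans ?_
  rw [← mul_sum]
  have b := sum_pow_choose V (2 * t + R) (s + R)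
  rw [← add_assoc, D.cardV] at b
  have c : ∑ Y ∈ typ θ U V with s + R ≤ Y.card + 2 * t ∧ Y.card ≤ s,
      (2 * t + R).choose (s + R - Y.card) ≤ (r + R).choose (s + R) :=
    le_trans (sum_le_sum_of_subset fun Y hY => mem_filter.2
      ⟨mem_powerset.2 (typ_sub (mem_filter.1 hY).1), by have := (mem_filter.1 hY).2.2; omega⟩) b
  gcongr
  exact_mod_cast c

theorem two_pow_le (hr : r + 1 = 2 * s + R) (hR : 1 ≤ R) (hs : R ≤ s) (h4 : 4 ≤ s) :
    2 ^ r * (s + R).choose R ≤ s ^ (4 * R) * r.choose s := by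
  have a := Nat.four_pow_le_two_mul_self_mul_centralBinom s (by omega)
  have b : s.centralBinom ≤ r.choose s := Nat.choose_le_choose _ (by omega)
  have c : (s + R).choose R ≤ (2 * s) ^ R :=
    (Nat.choose_le_pow _ _).trans (Nat.pow_le_pow_left (by omega) _)
  have d : 2 ^ r ≤ 4 ^ s * 2 ^ R := by
    rw [show 4 = 2 ^ 2 from rfl, ← pow_mul, ← pow_add]
    exact Nat.pow_le_pow_right two_pos (by omega)
  have e : 2 * s ≤ s ^ (2 * R) :=
    le_trans (by nlinarith) (Nat.pow_le_pow_right (by omega) (show 2 ≤ 2 * R by omega))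
  have f : 2 ^ R * (2 * s) ^ R ≤ s ^ (2 * R) := by
    rw [← mul_pow, pow_mul]
    exact Nat.pow_le_pow_left (by nlinarith) _
  calc _ ≤ 2 * s * r.choose s * 2 ^ R * (2 * s) ^ R := by
        gcongr
        exact d.trans (Nat.mul_le_mul_right _ (a.trans (Nat.mul_le_mul_left _ b)))
    _ = 2 * s * (2 ^ R * (2 * s) ^ R) * r.choose s := by ring
    _ ≤ s ^ (2 * R) * s ^ (2 * R) * r.choose s := by gcongr
    _ = _ := by ring

theorem two_thirds (n : ℕ) : (2 / 3 : ℝ) ^ n ≤ Real.exp (-(n / 3)) := by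
  rw [show -((n : ℝ) / 3) = n * (-(1 / 3)) by ring, Real.exp_nat_mul]
  gcongr
  linarith [Real.add_one_le_exp (-(1 / 3))]

theorem Dat.exc_le (D : Dat s R q t θ σ U U₂ W₂ V) (hs : 1 ≤ s)
    (h1 : 4 * R * Real.log s + s + R ≤ 4 * (θ + 1) / 3) (h2 : 4 * R * Real.log s + 2 * R ≤ t / 3) :
    ((exc R θ U U₂ W₂ V).card : ℝ) * s ^ (4 * R) ≤ 4 * 2 ^ r := by
  have es : (s : ℝ) ^ (4 * R) = Real.exp (4 * R * Real.log s) := by
    rw [← Real.exp_log (show (0 : ℝ) < s by exact_mod_cast hs), ← Real.exp_nat_mul, Real.log_exp]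
    push_cast
    rfl
  have e2 : (2 : ℝ) ≤ Real.exp 1 := by linarith [Real.add_one_le_exp 1]
  have hi : ∀ A : Finset (Fin r), A.card ≤ s + R → ((univ.filter fun S : Finset (Fin r) =>
      θ < (S ∩ A).card).card : ℝ) * s ^ (4 * R) ≤ 2 ^ r := fun A hA => by
    obtain ⟨m, hm⟩ : ∃ m, s + R = θ + 1 + m := ⟨s + R - (θ + 1), by have := D.n1; omega⟩
    have hm' : (s : ℝ) + R = θ + 1 + m := by exact_mod_cast hm
    have a : (2 : ℝ) ^ A.card * s ^ (4 * R) ≤ 3 ^ (θ + 1) := by
      have b : (2 : ℝ) ^ A.card ≤ 3 ^ (θ + 1) * ((2 / 3) ^ (θ + 1) * Real.exp m) := by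
        rw [← mul_assoc, ← mul_pow, ← mul_one (m : ℝ), Real.exp_nat_mul]
        refine (pow_le_pow_right₀ one_le_two (hm ▸ hA)).trans ?_
        rw [pow_add]
        gcongr
        norm_num
      refine (mul_le_mul_of_nonneg_right b (by positivity)).trans ?_
      rw [mul_assoc]
      refine mul_le_of_le_one_right (by positivity) ?_
      calc _ ≤ Real.exp (-(((θ + 1 : ℕ) : ℝ) / 3)) * Real.exp m * s ^ (4 * R) := by
            gcongr
            exact two_thirds _
        _ ≤ 1 := by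
            rw [es, ← Real.exp_add, ← Real.exp_add, Real.exp_le_one_iff]
            push_cast
            linarith
    refine le_of_mul_le_mul_right ?_ (show (0 : ℝ) < 3 ^ (θ + 1) by positivity)
    rw [mul_right_comm]
    refine (mul_le_mul_of_nonneg_right (tail_hi A θ) (by positivity)).trans ?_
    rw [mul_right_comm, mul_comm]
    gcongr
  have lo : ∀ A : Finset (Fin r), A.card = t → ((univ.filter fun S : Finset (Fin r) =>
      (S ∩ A).card < R).card : ℝ) * s ^ (4 * R) ≤ 2 ^ r := fun A hA => by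
    have a : (2 / 3 : ℝ) ^ t * s ^ (4 * R) ≤ (1 / 3) ^ R := by
      have b : Real.exp (-2) ≤ 1 / 3 := by
        rw [Real.exp_neg, one_div]
        exact inv_anti₀ (by norm_num) (by linarith [Real.add_one_le_exp 2])
      refine le_trans ?_ (pow_le_pow_left₀ (Real.exp_pos _).le b R)
      refine (mul_le_mul_of_nonneg_right (two_thirds t) (by positivity)).trans ?_
      rw [es, ← Real.exp_add, ← Real.exp_nat_mul, Real.exp_le_exp]
      linarith
    refine le_of_mul_le_mul_right ?_ (show (0 : ℝ) < (1 / 3) ^ R by positivity)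
    rw [mul_right_comm]
    refine (mul_le_mul_of_nonneg_right (tail_lo A R) (by positivity)).trans ?_
    rw [hA, mul_right_comm, mul_comm]
    gcongr
  have cU := card_add_card_compl U
  rw [Fintype.card_fin] at cU
  have := D.hr
  have := D.hU
  have := D.q1
  have := D.q2
  have a1 := hi (V ∩ U) ((card_le_card inter_subset_right).trans (by omega))
  have a2 := hi (V ∩ Uᶜ) ((card_le_card inter_subset_right).trans (by omega))
  have a3 := lo U₂ D.cU
  have a4 := lo W₂ D.cW
  have b : ((exc R θ U U₂ W₂ V).card : ℝ) ≤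
      (univ.filter fun S : Finset (Fin r) => θ < (S ∩ (V ∩ U)).card).card +
      ((univ.filter fun S : Finset (Fin r) => θ < (S ∩ (V ∩ Uᶜ)).card).card +
      ((univ.filter fun S : Finset (Fin r) => (S ∩ U₂).card < R).card +
      (univ.filter fun S : Finset (Fin r) => (S ∩ W₂).card < R).card)) := by
    rw [exc, filter_or, filter_or, filter_or]
    exact_mod_cast (card_union_le _ _).trans (Nat.add_le_add_left ((card_union_le _ _).trans
      (Nat.add_le_add_left (card_union_le _ _) _)) _)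
  refine (mul_le_mul_of_nonneg_right b (by positivity)).trans ?_
  rw [add_mul, add_mul, add_mul]
  linarith

theorem ratio_le (hR : 1 ≤ R) (h1 : 40 * R * t ≤ s) (h2 : 2 * R ^ 2 ≤ s) :
    ((s + R).choose R : ℝ) ≤ 9 * (s + R - 2 * t).choose R := by
  have hR' : (1 : ℝ) ≤ R := by exact_mod_cast hR
  have h1' : 40 * (R : ℝ) * t ≤ s := by exact_mod_cast h1
  have h2' : 2 * (R : ℝ) ^ 2 ≤ s := by exact_mod_cast h2
  have ht : 2 * t ≤ s := by nlinarith
  have a := choose_ratio (a := s + R) (c := s + R - 2 * t) (j := R) (γ := 1 + 2 / R) (by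
    rw [show s + R - 2 * t + 1 - R = s - 2 * t + 1 by omega]
    push_cast [ht]
    have t0 : (0 : ℝ) ≤ t := Nat.cast_nonneg _
    rw [show (1 + 2 / R : ℝ) = (R + 2) / R by field_simp, div_mul_eq_mul_div,
      le_div_iff₀ (by positivity)]
    nlinarith)
  refine a.trans (mul_le_mul_of_nonneg_right ?_ (Nat.cast_nonneg _))
  have b : (1 + 2 / R : ℝ) ^ R ≤ Real.exp (2 / R) ^ R := by
    gcongr
    linarith [Real.add_one_le_exp (2 / R : ℝ)]
  rw [← Real.exp_nat_mul, mul_div_cancel₀ _ (by positivity),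
    show (2 : ℝ) = 1 + 1 by norm_num, Real.exp_add] at b
  nlinarith [Real.exp_one_lt_d9, Real.exp_pos 1]

theorem level_le (hR : 1 ≤ R) : ((R : ℝ) + 1) * ((R + 1) * (1224 * R * Real.log (R + 1) *
    (20480 * R ^ 3) ^ R)) * Real.exp (-(34 * R * Real.log (R + 1))) ≤ 1 := by
  have hR' : (1 : ℝ) ≤ R := by exact_mod_cast hR
  set X : ℝ := R + 1 with hX
  have X2 : 2 ≤ X := by linarith
  have e : Real.exp (34 * R * Real.log X) = X ^ (34 * R) := by
    rw [← Real.exp_log (show 0 < X by linarith), ← Real.exp_nat_mul, Real.log_exp]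
    push_cast
    rfl
  rw [Real.exp_neg, e, mul_inv_le_iff₀ (by positivity), one_mul]
  have l0 : 0 ≤ Real.log X := Real.log_nonneg (by linarith)
  have l1 : Real.log X ≤ X := (Real.log_le_sub_one_of_pos (by linarith)).trans (by linarith)
  have a : 1224 * R * Real.log X ≤ X ^ 11 * X * X := by
    have := pow_le_pow_left₀ (by norm_num) X2 11
    gcongr <;> linarith
  have b : 20480 * (R : ℝ) ^ 3 ≤ X ^ 15 * X ^ 3 := by
    have := pow_le_pow_left₀ (by norm_num) X2 15
    gcongr <;> linarith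
  calc _ ≤ X * (X * (X ^ 11 * X * X * (X ^ 15 * X ^ 3) ^ R)) := by gcongr
    _ = X ^ (15 + 18 * R) := by ring
    _ ≤ _ := pow_le_pow_right₀ (by linarith) (by omega)

end Pool.Agent.Lib.MP_270b52_co.Rs
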