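import Pool.Agent.Lib.MP_270b52_co.Rs.G
import Pool.Agent.Lib.MP_270b52_co.MJoin

/-! The bound near `r = 2 s`. -/

set_option autoImplicit false

namespace Pool.Agent.Lib.MP_270b52_co.Rs

open Finset

theorem weight_le {s R t i : ℕ} {c p : ℝ} (hR : 1 ≤ R) (hs : R ≤ s) (hi : i ≤ R) (hc : 1 ≤ c)
    (hp : p * (s + R).choose R ≤ 9 * c) (ht : s ≤ 40 * R * (t + 1)) :
    (if i = 0 then 1 else p * (2 * (s + R).choose (R - i) : ℕ)) * (256 * s) ^ R ≤
      18 * c * (20480 * R ^ 3) ^ R * ((t + 1) / R) ^ (R - i) := by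
  have hR' : (1 : ℝ) ≤ R := by exact_mod_cast hR
  have hs' : (R : ℝ) ≤ s := by exact_mod_cast hs
  have ht' : (s : ℝ) ≤ 40 * R * (t + 1) := by exact_mod_cast ht
  have a : (s : ℝ) ≤ 40 * R ^ 2 * ((t + 1) / R) := ht'.trans (le_of_eq (by field_simp))
  set x : ℝ := (t + 1) / R
  have x0 : 0 < x := by positivity
  split_ifs with h
  · subst h
    rw [one_mul, Nat.sub_zero, mul_assoc, ← mul_pow]
    refine le_trans ?_ (le_mul_of_one_le_left (by positivity) (by linarith))
    refine pow_le_pow_left₀ (by positivity) ?_ _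
    nlinarith [mul_le_mul_of_nonneg_right hR' (show 0 ≤ (R : ℝ) ^ 2 * x by positivity),
      (show 0 ≤ (R : ℝ) ^ 2 * x by positivity)]
  · have b : ((s + R).choose (R - i) : ℝ) ≤ (80 * R ^ 2) ^ R * x ^ (R - i) := by
      have : ((s + R).choose (R - i) : ℝ) ≤ (s + R) ^ (R - i) := by
        exact_mod_cast Nat.choose_le_pow _ _
      refine this.trans ((pow_le_pow_left₀ (by positivity)
        (show (s : ℝ) + R ≤ 80 * R ^ 2 * x by linarith) _).trans ?_)
      rw [mul_pow]
      gcongr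
      · nlinarith
      · omega
    have d : p * (s : ℝ) ^ R ≤ 9 * c * R ^ R := by
      rcases le_total p 0 with h0 | h0
      · exact (mul_nonpos_of_nonpos_of_nonneg h0 (by positivity)).trans (by positivity)
      have := pow_le_choose_add (t := s) (le_refl R)
      rw [div_pow, div_le_iff₀ (by positivity)] at this
      calc _ ≤ p * (((s + R).choose R : ℝ) * R ^ R) := by
            gcongr
            exact le_trans (by gcongr; linarith) this
        _ ≤ _ := by
            rw [← mul_assoc]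
            gcongr
    push_cast
    calc _ = p * (s : ℝ) ^ R * (s + R).choose (R - i) * (2 * 256 ^ R) := by ring
      _ ≤ 9 * c * R ^ R * ((80 * R ^ 2) ^ R * x ^ (R - i)) * (2 * 256 ^ R) := by gcongr
      _ = _ := by
        rw [show (20480 * R ^ 3 : ℝ) = 256 * R * (80 * R ^ 2) by ring, mul_pow (256 * R : ℝ),
          mul_pow (256 : ℝ)]
        ring

theorem exists_near {r s R : ℕ} (hr : r + 1 = 2 * s + R) (hR : 1 ≤ R) (h2 : 2 ≤ s)
    (hK : (2 : ℝ) ^ 111 * R ^ 2 * Real.log s ≤ s) :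
    ∃ H : Finset (Finset (Fin r)), (∀ e ∈ H, e.card = s) ∧ (∀ e ∈ H, ∀ f ∈ H, (e ∩ f).Nonempty) ∧
      (∀ C : Finset (Fin r), C.card < s → ∃ e ∈ H, Disjoint e C) ∧
      (H.card : ℝ) * (s + R).choose R ≤ (1224 * R * Real.log (R + 1) + 6) * r.choose s := by
  have hR' : (1 : ℝ) ≤ R := by exact_mod_cast hR
  have h2' : (2 : ℝ) ≤ s := by exact_mod_cast h2
  have l2 : (1 / 2 : ℝ) ≤ Real.log 2 := by linarith [Real.log_two_gt_d9]
  have ls : (1 / 2 : ℝ) ≤ Real.log s := l2.trans (Real.log_le_log two_pos h2')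
  have lR : (1 / 2 : ℝ) ≤ Real.log (R + 1) := l2.trans (Real.log_le_log two_pos (by linarith))
  have big : 1000 * (R * R) ≤ s := by
    have : 1000 * ((R : ℝ) * R) ≤ s := by nlinarith
    exact_mod_cast this
  have big' : R ≤ R * R := Nat.le_mul_self R
  have lRs : Real.log (R + 1) ≤ Real.log s := Real.log_le_log (by positivity)
    (by exact_mod_cast (by omega : R + 1 ≤ s))
  obtain ⟨q, q1, q2⟩ : ∃ q, (R + 1) * q ≤ s ∧ s ≤ (R + 1) * q + R :=
    ⟨s / (R + 1), Nat.mul_div_le _ _, by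
      have := Nat.div_add_mod s (R + 1)
      have := Nat.mod_lt s (show 0 < R + 1 by omega)
      omega⟩
  obtain ⟨t, t1, t2⟩ : ∃ t, 40 * R * t ≤ s ∧ s ≤ 40 * R * (t + 1) :=
    ⟨s / (40 * R), Nat.mul_div_le _ _, (Nat.lt_mul_div_succ _ (by omega)).le⟩
  have t3 : 40 * t ≤ s := by nlinarith
  obtain ⟨U, -, hU⟩ := exists_subset_card_eq (s := (univ : Finset (Fin r)))
    (n := (R + 1) * q + R) (by rw [card_univ, Fintype.card_fin]; omega)
  obtain ⟨U₂, u1, u2⟩ := exists_subset_card_eq (s := U) (n := t) (by omega)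
  obtain ⟨W₂, w1, w2⟩ := exists_subset_card_eq (s := Uᶜ) (n := t)
    (by rw [card_compl, Fintype.card_fin]; omega)
  have D : Dat s R q t (9 * s / 10) (s / 20) U U₂ W₂ (U₂ ∪ W₂)ᶜ :=
    ⟨hr, hU, q1, q2, u1, w1, u2, w2, rfl, by omega, by omega, by omega⟩
  choose T hT hT' using fun A : Finset (Fin r) => exists_tur' A
  set c : ℝ := 68 * R * Real.log (R + 1) with hc
  have c1 : 1 ≤ c := by nlinarith
  have N0 : (0 : ℝ) < (s + R - 2 * t).choose R := by exact_mod_cast Nat.choose_pos (by omega)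
  have C0 : (0 : ℝ) < (s + R).choose R := by exact_mod_cast Nat.choose_pos (by omega)
  set p : ℝ := c / (s + R - 2 * t).choose R with hp
  have p0 : 0 ≤ p := by positivity
  have pN : p * (s + R - 2 * t).choose R = c := div_mul_cancel₀ _ N0.ne'
  have pC : p * (s + R).choose R ≤ 9 * c := by
    have := mul_le_mul_of_nonneg_left (ratio_le hR t1 (by nlinarith)) p0
    linarith
  have hδ : p * (2 * (s + R).choose (R - 1) : ℕ) ≤ (1 / 2) ^ 100 := by
    have e := Nat.choose_succ_right_eq (s + R) (R - 1)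
    rw [Nat.sub_add_cancel hR, show s + R - (R - 1) = s + 1 by omega] at e
    have e' : ((s + R).choose R : ℝ) * R = (s + R).choose (R - 1) * (s + 1) := by exact_mod_cast e
    refine le_of_mul_le_mul_right ?_ (show (0 : ℝ) < s + 1 by positivity)
    push_cast
    calc _ = 2 * R * (p * (s + R).choose R) := by linear_combination -2 * p * e'
      _ ≤ 2 * R * (9 * (68 * R * Real.log s)) := by
        exact mul_le_mul_of_nonneg_left (pC.trans (by rw [hc]; gcongr)) (by positivity)
      _ ≤ _ := by nlinarith [mul_nonneg (sq_nonneg (R : ℝ)) (le_trans (by norm_num) ls)]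
  have p1 : p ≤ 1 := by
    have : (1 : ℝ) ≤ (2 * (s + R).choose (R - 1) : ℕ) := by
      exact_mod_cast Nat.mul_pos two_pos (Nat.choose_pos (by omega))
    exact (le_mul_of_one_le_right p0 this).trans (hδ.trans (by norm_num))
  set b : ℝ := r.choose s / (s + R).choose R with hb
  have eb : (r.choose s : ℝ) = b * (s + R).choose R := (div_mul_cancel₀ _ C0.ne').symm
  have b0 : 0 < b := div_pos (by exact_mod_cast Nat.choose_pos (by omega)) C0
  obtain ⟨𝓡, h𝓡, G, hle⟩ := D.prob hR (by omega) p0 p1 hδ (by norm_num) (cost s R U₂ W₂ T)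
    (M := 2 * (9 * c + 1) * b) (by positivity) (by
      have a1 : p * r.choose s ≤ 9 * c * b := by
        rw [eb, mul_left_comm, mul_comm _ b]
        gcongr
      have a3 : 2 * (2 ^ r * ((1 / 2 : ℝ) ^ 100) ^ (s / 20)) ≤ 1 / 4 := by
        rw [← pow_mul]
        refine le_trans (b := 2 * (2 ^ r * (1 / 2) ^ (r + 3))) (by
          gcongr 2 * (_ * ?_)
          exact pow_le_pow_of_le_one (by norm_num) (by norm_num) (by omega)) (le_of_eq ?_)
        rw [pow_add, ← mul_assoc (2 ^ r : ℝ), ← mul_pow]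
        norm_num
      have a4 : ((r + R).choose (s + R) : ℝ) ≤ (4 * s) ^ R * b := by
        have e : ((r + R).choose (s + R) : ℝ) * (s + R).choose R = (r + R).choose R * r.choose s := by
          exact_mod_cast choose_shift r s R
        have f : ((r + R).choose R : ℝ) ≤ (4 * s) ^ R := by
          exact_mod_cast (Nat.choose_le_pow _ _).trans (Nat.pow_le_pow_left (by omega) _)
        refine le_of_mul_le_mul_right ?_ C0
        rw [e, mul_assoc, ← eb]
        gcongr
      refine lt_of_le_of_lt (add_le_add (add_le_add a1 ((sum_le_card_nsmul _ _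
        ((R + 1) * (18 * c * (20480 * R ^ 3) ^ R) * Real.exp (-(c / 2)) * b)
          fun i hi => ?_).trans (?_ : _ ≤ b))) (mul_le_mul_of_nonneg_left a3 (by positivity))) ?_
      · have hi' := Nat.le_of_lt_succ (mem_range.1 hi)
        have k1 := D.cost_le hT' hi'
        have k2 := weight_le hR (by omega) hi' c1 pC t2
        rw [pN]
        have x0 : (0 : ℝ) < ((t + 1) / R) ^ (R - i) := by positivity
        have w0 : 0 ≤ (if i = 0 then 1 else p * (2 * (s + R).choose (R - i) : ℕ)) := by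
          split_ifs <;> positivity
        generalize (if i = 0 then 1 else p * (2 * (s + R).choose (R - i) : ℕ)) = w at k2 w0 ⊢
        refine le_of_mul_le_mul_right ?_ x0
        rw [mul_assoc]
        calc _ ≤ w * Real.exp (-(c / 2)) * ((R + 1) * 64 ^ R * ((4 * s) ^ R * b)) := by
              exact mul_le_mul_of_nonneg_left (k1.trans (by gcongr)) (by positivity)
          _ = (R + 1) * (w * (256 * s) ^ R) * Real.exp (-(c / 2)) * b := by
              rw [show (256 * s : ℝ) = 64 * (4 * s) by ring, mul_pow (64 : ℝ)]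
              ring
          _ ≤ (R + 1) * (18 * c * (20480 * R ^ 3) ^ R * ((t + 1) / R) ^ (R - i)) *
              Real.exp (-(c / 2)) * b := by gcongr
          _ = _ := by ring
      · have := level_le hR
        rw [card_range, nsmul_eq_mul, ← mul_assoc]
        refine mul_le_of_le_one_left b0.le (le_trans (le_of_eq ?_) this)
        rw [show c / 2 = 34 * R * Real.log (R + 1) by rw [hc]; ring, hc]
        push_cast
        ring
      · nlinarith)
  obtain ⟨H, H1, H2, H3, H4⟩ := D.det h𝓡 G hT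
  refine ⟨H, H1, H2, H3, ?_⟩
  have l0 : 0 ≤ R * Real.log s := by positivity
  have R0 : (0 : ℝ) ≤ R := Nat.cast_nonneg _
  have l1 : 1000 * (R * Real.log s) ≤ s := by
    linarith [mul_nonneg R0 l0, mul_le_mul_of_nonneg_right hR' l0]
  have l3 := mul_le_mul_of_nonneg_left ls R0
  have hE := D.exc_le (by omega) (by
    have : (9 * s : ℝ) ≤ 10 * ((9 * s / 10 : ℕ) + 1) := by
      exact_mod_cast (by omega : 9 * s ≤ 10 * (9 * s / 10 + 1))
    have : 1000 * (R : ℝ) ≤ s := by exact_mod_cast (by omega : 1000 * R ≤ s)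
    linarith) (by
    have t2' : (s : ℝ) ≤ 40 * R * (t + 1) := by exact_mod_cast t2
    have : 2 ^ 100 * (R * Real.log s) ≤ t + 1 := le_of_mul_le_mul_left (a := (40 * R : ℝ))
      (by linarith [mul_nonneg R0 l0]) (by positivity)
    linarith)
  have hP : (2 : ℝ) ^ r * (s + R).choose R ≤ s ^ (4 * R) * r.choose s := by
    exact_mod_cast two_pow_le hr hR (by omega) (by omega)
  have hE' : ((exc R (9 * s / 10) U U₂ W₂ (U₂ ∪ W₂)ᶜ).card : ℝ) ≤ 4 * b := by
    rw [eb, ← mul_assoc] at hP
    have := le_of_mul_le_mul_right hP C0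
    exact le_of_mul_le_mul_right (a := (s : ℝ) ^ (4 * R)) (by linarith) (by positivity)
  have := (Nat.cast_le (α := ℝ)).2 H4
  rw [Nat.cast_add] at this
  rw [eb, ← mul_assoc]
  gcongr
  rw [hc] at hle
  linarith

open MD in
theorem near : ∃ K : ℕ, ∀ r s R : ℕ, 2 ≤ s → r + 1 = 2 * s + R →
    (K : ℝ) * R ^ 2 * Real.log s ≤ s →
      B r s ≤ m r s ∧ (m r s : ℝ) ≤ K * (R + 1) * Real.log (R + 2) * B r s := by
  refine ⟨2 ^ 111, fun r s R hs hr hK => ⟨(joined.choose_spec r s hs (by omega)).1, ?_⟩⟩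
  have C0 : (0 : ℝ) < (s + R).choose R := by exact_mod_cast Nat.choose_pos (by omega)
  have eB : B r s = r.choose s / (s + R).choose R := by
    rw [B, ← Kn.lb_eq hs (by omega), show r - (s - 1) = s + R by omega, Nat.choose_symm_add]
  have R0 : (0 : ℝ) ≤ R := Nat.cast_nonneg _
  have l2 : (1 / 2 : ℝ) ≤ Real.log (R + 2) :=
    le_trans (by linarith [Real.log_two_gt_d9]) (Real.log_le_log two_pos (by linarith))
  obtain ⟨H, H1, H2, H3, H4⟩ : ∃ H : Finset (Finset (Fin r)), (∀ e ∈ H, e.card = s) ∧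
      (∀ e ∈ H, ∀ f ∈ H, (e ∩ f).Nonempty) ∧
      (∀ C : Finset (Fin r), C.card < s → ∃ e ∈ H, Disjoint e C) ∧ (H.card : ℝ) * (s + R).choose R ≤
        2 ^ 111 * (R + 1) * Real.log (R + 2) * r.choose s := by
    rcases Nat.eq_zero_or_pos R with rfl | hR
    · obtain ⟨H, H1, H2, H3, H4⟩ := exists_fam (by omega) hr
      refine ⟨H, H1, H2, H3, H4.trans (mul_le_mul_of_nonneg_right ?_ (Nat.cast_nonneg _))⟩
      rw [pow_zero]
      generalize Real.log (((0 : ℕ) : ℝ) + 2) = L at l2 ⊢
      rw [Nat.cast_zero]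
      linarith
    · obtain ⟨H, H1, H2, H3, H4⟩ := exists_near hr hR hs (by exact_mod_cast hK)
      refine ⟨H, H1, H2, H3, H4.trans (mul_le_mul_of_nonneg_right ?_ (Nat.cast_nonneg _))⟩
      have := mul_le_mul_of_nonneg_left (Real.log_le_log (by positivity)
        (show (R : ℝ) + 1 ≤ R + 2 by linarith)) R0
      nlinarith
  have : m r s ≤ H.card := Nat.sInf_le ⟨H, rfl, (fam_iff (by omega) H).1 ⟨H1, H2, H3⟩⟩
  rw [eB, ← mul_div_assoc, le_div_iff₀ C0]
  rw [Nat.cast_pow, Nat.cast_ofNat]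
  exact le_trans (mul_le_mul_of_nonneg_right (Nat.cast_le.2 this) C0.le) H4

end Pool.Agent.Lib.MP_270b52_co.Rs
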